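import Pool.Agent.Helper66.FL.Chart

open MvPolynomial AlgebraicGeometry HomogeneousLocalization

universe u

namespace Pool.Agent.FL

variable {A : Type u} [CommRing A] {r : ℕ}

/-- the homogeneous coordinates `1, X, Y` of the affine plane -/
noncomputable def coordW (A : Type u) [CommRing A] (j : Fin 3) : MvPolynomial (Fin 2) A :=
  ![1, X 0, X 1] j

/-- the linear form `X - α i` (for `false`) or `Y - β i` (for `true`) -/
noncomputable def lin (α β : Fin r → A) (i : Fin r) (c : Bool) : MvPolynomial (Fin 2) A :=
  bif c then X 1 - C (β i) else X 0 - C (α i)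

/-- the product of one linear form for each point -/
noncomputable def prodLin (α β : Fin r → A) (c : Fin r → Bool) : MvPolynomial (Fin 2) A :=
  ∏ i, lin α β i (c i)

/-- generators: (a homogeneous coordinate) times (one linear form through each point) -/
noncomputable def gen (α β : Fin r → A) (x : Fin 3 × (Fin r → Bool)) : MvPolynomial (Fin 2) A :=
  coordW A x.1 * prodLin α β x.2

/-- the module spanned by the generators -/
noncomputable def arrMod (α β : Fin r → A) : Submodule A (MvPolynomial (Fin 2) A) :=
  Submodule.span A (Set.range (gen α β))

/-- the blow-up of the projective plane over `A` in the points `(α i, β i)`: the closure of the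
graph of the affine plane in `ℙ² × (ℙ¹)^r` in its Segre embedding, as `Proj` of the graded ring
generated by the products of a homogeneous coordinate of the plane and one linear form through
each point -/
noncomputable abbrev arrProj (α β : Fin r → A) : Scheme.{u} := Proj (coneGr (arrMod α β))

lemma gen_mem (α β : Fin r → A) (x) : gen α β x ∈ arrMod α β := Submodule.subset_span ⟨x, rfl⟩

lemma lin_mul_mem (α β : Fin r → A) (l : Fin r) (b : Bool) (c : Fin r → Bool) :
    lin α β l b * prodLin α β c ∈ arrMod α β := by
  have h0 := gen_mem α β (0, c)
  have h1 := gen_mem α β (1, c)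
  have h2 := gen_mem α β (2, c)
  simp only [gen, coordW, Matrix.cons_val_zero, Matrix.cons_val_one, Matrix.cons_val, one_mul] at h0 h1 h2
  cases b
  · have : lin α β l false * prodLin α β c = X 0 * prodLin α β c - (α l) • prodLin α β c := by
      simp only [lin, cond_false, sub_mul, C_mul']
    rw [this]
    exact Submodule.sub_mem _ h1 (Submodule.smul_mem _ _ h0)
  · have : lin α β l true * prodLin α β c = X 1 * prodLin α β c - (β l) • prodLin α β c := by
      simp only [lin, cond_true, sub_mul, C_mul']
    rw [this]
    exact Submodule.sub_mem _ h2 (Submodule.smul_mem _ _ h0)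

/-- index of the charts: `inl (i, c)` is a chart near the exceptional curve over the `i`-th point,
`inr b` are two charts near the line at infinity -/
abbrev ChartIx (r : ℕ) : Type := (Fin r × (Fin r → Bool)) ⊕ Bool

/-- the homogeneous coordinate that does not vanish in the chart -/
def chartJ : ChartIx r → Fin 3
  | .inl _ => 0
  | .inr false => 1
  | .inr true => 2

/-- the linear forms through the points used in the chart -/
def chartC : ChartIx r → Fin r → Bool
  | .inl x => x.2
  | .inr b => fun _ => b

/-- the points whose exceptional curve is removed in the chart -/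
def chartD : ChartIx r → Finset (Fin r)
  | .inl x => Finset.univ.erase x.1
  | .inr _ => Finset.univ

/-- first factor of the equation of the chart -/
noncomputable def chartF1 (α β : Fin r → A) (x : ChartIx r) : MvPolynomial (Fin 2) A :=
  gen α β (chartJ x, chartC x)

/-- second factor of the equation of the chart -/
noncomputable def chartF2 (α β : Fin r → A) (x : ChartIx r) : MvPolynomial (Fin 2) A :=
  ∏ l ∈ chartD x, (lin α β l (chartC x l) * prodLin α β (chartC x))

lemma chartF1_mem (α β : Fin r → A) (x : ChartIx r) : chartF1 α β x ∈ arrMod α β := gen_mem _ _ _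

lemma chartF2_mem (α β : Fin r → A) (x : ChartIx r) :
    chartF2 α β x ∈ arrMod α β ^ (chartD x).card := by
  have key : ∀ S : Finset (Fin r), ∏ l ∈ S, (lin α β l (chartC x l) * prodLin α β (chartC x)) ∈
      arrMod α β ^ S.card := by
    classical
    intro S
    induction S using Finset.induction_on with
    | empty =>
      rw [Finset.prod_empty, Finset.card_empty, pow_zero]
      exact Submodule.one_le.1 le_rfl
    | insert a S ha ih =>
      rw [Finset.prod_insert ha, Finset.card_insert_of_notMem ha, pow_succ']
      exact Submodule.mul_mem_mul (lin_mul_mem _ _ _ _ _) ih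
  exact key _

lemma chartF_mem (α β : Fin r → A) (x : ChartIx r) :
    chartF1 α β x * chartF2 α β x ∈ arrMod α β ^ ((chartD x).card + 1) := by
  rw [pow_succ']
  exact Submodule.mul_mem_mul (chartF1_mem _ _ _) (chartF2_mem _ _ _)

/-- the homogeneous equation of the chart -/
noncomputable def chartElt (α β : Fin r → A) (x : ChartIx r) : coneRing (arrMod α β) :=
  hom ((chartD x).card + 1) (chartF1 α β x * chartF2 α β x) (chartF_mem α β x)

lemma chartElt_mem (α β : Fin r → A) (x : ChartIx r) :
    chartElt α β x ∈ coneGr (arrMod α β) ((chartD x).card + 1) := hom_mem _ _ _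

/-- the homogeneous coordinate `j` divided by the coordinate `chartJ x`, as a polynomial in the
two coordinates `s = X 0`, `t = X 1` of the chart -/
noncomputable def coordP (α β : Fin r → A) (x : ChartIx r) (j : Fin 3) : MvPolynomial (Fin 2) A :=
  match x with
  | .inl (i, c) =>
    bif c i then ![1, X 0 * X 1 + C (α i), X 0 + C (β i)] j
    else ![1, X 0 + C (α i), X 0 * X 1 + C (β i)] j
  | .inr false => ![X 0, 1, X 1] j
  | .inr true => ![X 0, X 1, 1] j

/-- the linear form divided by the coordinate `chartJ x` in the coordinates of the chart -/
noncomputable def linP (α β : Fin r → A) (x : ChartIx r) (l : Fin r) (b : Bool) :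
    MvPolynomial (Fin 2) A :=
  bif b then coordP α β x 2 - C (β l) * coordP α β x 0
  else coordP α β x 1 - C (α l) * coordP α β x 0

/-- the function inverted in the chart -/
noncomputable def chartH (α β : Fin r → A) (x : ChartIx r) : MvPolynomial (Fin 2) A :=
  ∏ l ∈ chartD x, linP α β x l (chartC x l)

/-- a ring in which the coordinates and all linear forms are invertible -/
structure IsGeneric (α β : Fin r → A) {K : Type u} [CommRing K] [Algebra A K]
    (κ : MvPolynomial (Fin 2) A →ₐ[A] K) : Prop where
  inj : Function.Injective κ
  unit_coord : ∀ j, IsUnit (κ (coordW A j))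
  unit_lin : ∀ i b, IsUnit (κ (lin α β i b))

section theta

variable {K : Type u} [CommRing K] [Algebra A K] (κ : MvPolynomial (Fin 2) A →ₐ[A] K)

/-- the two coordinates of the chart as elements of `K` -/
noncomputable def chartST (α β : Fin r → A) (x : ChartIx r) : Fin 2 → K :=
  match x with
  | .inl (i, c) => ![κ (lin α β i (c i)), κ (lin α β i (!c i)) * Ring.inverse (κ (lin α β i (c i)))]
  | .inr false => ![Ring.inverse (κ (X 0)), κ (X 1) * Ring.inverse (κ (X 0))]
  | .inr true => ![Ring.inverse (κ (X 1)), κ (X 0) * Ring.inverse (κ (X 1))]

/-- the coordinate ring of the chart mapped to `K` -/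
noncomputable def theta (α β : Fin r → A) (x : ChartIx r) : MvPolynomial (Fin 2) A →ₐ[A] K :=
  aeval (chartST κ α β x)

end theta

end Pool.Agent.FL
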