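import Mathlib

open MvPolynomial

namespace Pool.Agent.FL

/-- `b` is a basis of the ring `B` over itself, acting through the `q`-th power map. -/
def QBasis (q : ℕ) {B : Type*} [CommRing B] {n : Type*} [Fintype n] (b : n → B) : Prop :=
  Function.Bijective (fun c : n → B => ∑ k, c k ^ q * b k)

/-- the `q`-th power map is additive on `B` -/
def AddPow (q : ℕ) (B : Type*) [CommRing B] : Prop := ∀ a b : B, (a + b) ^ q = a ^ q + b ^ q

lemma addPow_of_char {p : ℕ} (hp : p.Prime) (e : ℕ) {B : Type*} [CommRing B] (h : (p : B) = 0) :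
    AddPow (p ^ e) B := by
  intro a b
  rw [add_pow_prime_pow_eq hp, h, zero_mul, zero_mul, zero_mul, add_zero]

section

variable {q : ℕ} {B : Type*} [CommRing B] {n : Type*} [Fintype n] {b : n → B}

lemma qbasis_sub (hq : AddPow q B) (c d : n → B) :
    ∑ k, (c k - d k) ^ q * b k = ∑ k, c k ^ q * b k - ∑ k, d k ^ q * b k := by
  rw [← Finset.sum_sub_distrib]
  refine Finset.sum_congr rfl fun k _ => ?_
  have h1 := hq (c k - d k) (d k)
  rw [sub_add_cancel] at h1
  rw [h1]; ring

lemma qbasis_iff (hq0 : q ≠ 0) (hq : AddPow q B) : QBasis q b ↔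
    (∀ c : n → B, ∑ k, c k ^ q * b k = 0 → c = 0) ∧ (∀ x : B, ∃ c : n → B, ∑ k, c k ^ q * b k = x) := by
  constructor
  · intro h
    refine ⟨fun c hc => h.1 ?_, fun x => h.2 x⟩
    simp only [hc, Pi.zero_apply, zero_pow hq0, zero_mul, Finset.sum_const_zero]
  · rintro ⟨h1, h2⟩
    refine ⟨fun c d hcd => ?_, h2⟩
    have : (fun k => c k - d k) = 0 := by
      apply h1
      rw [qbasis_sub hq]
      simp only at hcd
      rw [hcd, sub_self]
    funext k
    exact sub_eq_zero.mp (congrFun this k)

lemma addPow_localization (hq : AddPow q B) (B' : Type*) [CommRing B'] [Algebra B B'] (f : B)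
    [IsLocalization.Away f B'] : AddPow q B' := by
  intro x y
  obtain ⟨⟨x', y'⟩, s, hx, hy⟩ :
      ∃ (a : B × B) (s : Submonoid.powers f), x * algebraMap B B' s = algebraMap B B' a.1 ∧
        y * algebraMap B B' s = algebraMap B B' a.2 := by
    obtain ⟨⟨a, s⟩, ha⟩ := IsLocalization.surj (Submonoid.powers f) x
    obtain ⟨⟨b, t⟩, hb⟩ := IsLocalization.surj (Submonoid.powers f) y
    refine ⟨(a * t, b * s), s * t, ?_, ?_⟩
    · simp only [Submonoid.coe_mul, map_mul] at ha ⊢
      rw [← mul_assoc, ha]
    · simp only [Submonoid.coe_mul, map_mul] at hb ⊢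
      rw [mul_comm (algebraMap B B' s), ← mul_assoc, hb]
  have hu : IsUnit (algebraMap B B' s) := IsLocalization.map_units B' s
  have hu' : IsUnit ((algebraMap B B' s) ^ q) := hu.pow q
  apply hu'.mul_left_injective
  change (x + y) ^ q * _ = (x ^ q + y ^ q) * _
  rw [← mul_pow, add_mul, add_mul, ← mul_pow, ← mul_pow, hx, hy, ← map_add, ← map_pow, hq]
  simp

lemma QBasis.localization (hq0 : q ≠ 0) (hq : AddPow q B) (hb : QBasis q b) (B' : Type*)
    [CommRing B'] [Algebra B B'] (f : B) [IsLocalization.Away f B'] :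
    QBasis q (fun k => algebraMap B B' (b k)) := by
  classical
  rw [qbasis_iff hq0 (addPow_localization hq B' f)]
  rw [qbasis_iff hq0 hq] at hb
  constructor
  · intro c hc
    obtain ⟨s, hs⟩ := IsLocalization.exist_integer_multiples_of_finite (Submonoid.powers f) c
    choose a ha using hs
    have ha' : ∀ k, algebraMap B B' (a k) = algebraMap B B' s * c k := by
      intro k; rw [ha k]; exact Algebra.smul_def _ _
    have h1 : algebraMap B B' (∑ k, a k ^ q * b k) = 0 := by
      rw [map_sum]
      have : ∀ k, algebraMap B B' (a k ^ q * b k) =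
          (algebraMap B B' s) ^ q * (c k ^ q * algebraMap B B' (b k)) := by
        intro k
        rw [map_mul, map_pow, ha' k, mul_pow, mul_assoc]
      simp only [this]
      rw [← Finset.mul_sum, hc, mul_zero]
    obtain ⟨t, ht⟩ := (IsLocalization.map_eq_zero_iff (Submonoid.powers f) B' _).1 h1
    have h2 : ∑ k, ((t : B) * a k) ^ q * b k = 0 := by
      have : ∀ k, ((t : B) * a k) ^ q * b k = (t : B) ^ (q - 1) * ((t : B) * (a k ^ q * b k)) := by
        intro k
        obtain ⟨q', rfl⟩ : ∃ q', q = q' + 1 := Nat.exists_eq_add_one_of_ne_zero hq0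
        simp only [Nat.add_sub_cancel]
        ring
      simp only [this]
      rw [← Finset.mul_sum, ← Finset.mul_sum, ht, mul_zero]
    have h3 := hb.1 _ h2
    funext k
    have h4 : (t : B) * a k = 0 := congrFun h3 k
    have h5 : algebraMap B B' t * (algebraMap B B' s * c k) = 0 := by
      rw [← ha' k, ← map_mul, h4, map_zero]
    have hu : IsUnit (algebraMap B B' s) := IsLocalization.map_units B' s
    have hv : IsUnit (algebraMap B B' t) := IsLocalization.map_units B' t
    rw [hv.mul_right_eq_zero, hu.mul_right_eq_zero] at h5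
    exact h5
  · intro x
    obtain ⟨⟨a, s⟩, ha⟩ := IsLocalization.surj (Submonoid.powers f) x
    have hu : IsUnit (algebraMap B B' s) := IsLocalization.map_units B' s
    obtain ⟨c, hc⟩ := hb.2 (a * (s : B) ^ (q - 1))
    obtain ⟨v, hv⟩ := hu.exists_left_inv
    refine ⟨fun k => v * algebraMap B B' (c k), ?_⟩
    have h1 : ∀ k, (v * algebraMap B B' (c k)) ^ q * algebraMap B B' (b k) =
        v ^ q * algebraMap B B' (c k ^ q * b k) := by
      intro k; rw [map_mul, map_pow]; ring
    simp only [h1]
    rw [← Finset.mul_sum, ← map_sum, hc, map_mul, map_pow, ← ha]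
    obtain ⟨q', rfl⟩ : ∃ q', q = q' + 1 := Nat.exists_eq_add_one_of_ne_zero hq0
    simp only [Nat.add_sub_cancel]
    have : v ^ (q' + 1) * (x * algebraMap B B' s * algebraMap B B' s ^ q') =
      (v * algebraMap B B' s) ^ (q' + 1) * x := by ring
    rw [this, hv, one_pow, one_mul]

lemma QBasis.of_ringEquiv (hb : QBasis q b) {B' : Type*} [CommRing B'] (φ : B ≃+* B') :
    QBasis q (fun k => φ (b k)) := by
  have h1 : (fun c : n → B' => ∑ k, c k ^ q * φ (b k)) =
      φ ∘ (fun c : n → B => ∑ k, c k ^ q * b k) ∘ (fun c k => φ.symm (c k)) := by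
    funext c
    simp [map_sum]
  unfold QBasis
  rw [h1]
  refine φ.bijective.comp (hb.comp ?_)
  exact (Equiv.piCongrRight (fun _ => φ.symm.toEquiv)).bijective

lemma QBasis.comp_equiv (hb : QBasis q b) {m : Type*} [Fintype m] (σ : m ≃ n) :
    QBasis q (fun k => b (σ k)) := by
  have h1 : (fun c : m → B => ∑ k, c k ^ q * b (σ k)) =
      (fun c : n → B => ∑ k, c k ^ q * b k) ∘ (fun c k => c (σ.symm k)) := by
    funext c
    simp only [Function.comp]
    rw [← Equiv.sum_comp σ]
    simp
  unfold QBasis
  rw [h1]
  exact hb.comp (σ.arrowCongr (Equiv.refl B)).bijective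

end

/-- monomials `X^r`, `r < q`, form a `q`-basis of the polynomial ring over a perfect field -/
theorem qbasis_mvPolynomial {p : ℕ} [Fact p.Prime] (e : ℕ) (k : Type*) [Field k] [CharP k p]
    [PerfectRing k p] (σ : Type*) [Fintype σ] [DecidableEq σ] :
    QBasis (p ^ e) (fun r : σ → Fin (p ^ e) =>
      (monomial (Finsupp.equivFunOnFinite.symm fun i => (r i : ℕ)) (1 : k) : MvPolynomial σ k)) := by
  classical
  set q := p ^ e with hqdef
  have hp : p.Prime := Fact.out
  have hqpos : 0 < q := pow_pos hp.pos _
  have hq0 : q ≠ 0 := hqpos.ne'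
  have hadd : AddPow q (MvPolynomial σ k) := by
    apply addPow_of_char hp
    exact_mod_cast CharP.cast_eq_zero (MvPolynomial σ k) p
  have : ExpChar k p := ExpChar.prime hp
  rw [qbasis_iff hq0 hadd]
  constructor
  · intro c hc
    funext r
    refine MvPolynomial.ext _ _ fun m => ?_
    set R : σ →₀ ℕ := Finsupp.equivFunOnFinite.symm fun i => (r i : ℕ) with hR
    have h1 := congrArg (MvPolynomial.coeff (q • m + R)) hc
    rw [MvPolynomial.coeff_sum, Finset.sum_eq_single r] at h1
    · rw [coeff_mul_monomial] at h1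
      have h2 := MvPolynomial.map_iterateFrobenius_expand (p := p) (c r) e
      rw [← hqdef] at h2
      rw [← h2, coeff_map, coeff_expand_smul _ hq0] at h1
      simp only [mul_one, coeff_zero, iterateFrobenius_def] at h1
      simpa using pow_eq_zero_iff (pow_pos hp.pos e).ne' |>.1 h1
    · intro s _ hs
      set S : σ →₀ ℕ := Finsupp.equivFunOnFinite.symm fun i => (s i : ℕ) with hS
      rw [coeff_mul_monomial']
      split_ifs with hle
      · have h2 := MvPolynomial.map_iterateFrobenius_expand (p := p) (c s) e
        rw [← hqdef] at h2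
        rw [← h2, coeff_map]
        have h3 : coeff (q • m + R - S) (expand q (c s)) = 0 := by
          obtain ⟨i, hi⟩ : ∃ i, s i ≠ r i := by
            by_contra hcon
            push Not at hcon
            exact hs (funext hcon)
          apply coeff_expand_of_not_dvd (i := i)
          intro hdvd
          have hle' := hle i
          simp only [Finsupp.coe_add, Finsupp.coe_smul, Pi.add_apply, Pi.smul_apply, smul_eq_mul,
            Finsupp.coe_tsub, Pi.sub_apply] at hdvd hle'
          have hRi : R i = (r i : ℕ) := rfl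
          have hSi : S i = (s i : ℕ) := rfl
          rw [hRi, hSi] at hdvd hle'
          have hr := (r i).2
          have hs' := (s i).2
          have h4 : (q * m i + (r i : ℕ)) % q = (s i : ℕ) % q :=
            ((Nat.modEq_iff_dvd' hle').2 hdvd).symm
          rw [Nat.mul_add_mod, Nat.mod_eq_of_lt hr, Nat.mod_eq_of_lt hs'] at h4
          exact hi (Fin.ext h4.symm)
        rw [h3]; simp
      · rfl
    · simp
  · intro x
    induction x using MvPolynomial.induction_on' with
    | monomial m a =>
      let r : σ → Fin q := fun i => ⟨m i % q, Nat.mod_lt _ hqpos⟩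
      let m' : σ →₀ ℕ := Finsupp.equivFunOnFinite.symm fun i => m i / q
      let a' : k := (iterateFrobeniusEquiv k p e).symm a
      refine ⟨Pi.single r (monomial m' a'), ?_⟩
      rw [Finset.sum_eq_single r]
      · rw [Pi.single_eq_same, monomial_pow, monomial_mul, mul_one]
        have h1 : a' ^ q = a := by
          have := (iterateFrobeniusEquiv k p e).apply_symm_apply a
          rwa [iterateFrobeniusEquiv_def] at this
        rw [h1]
        have h2 : q • m' + Finsupp.equivFunOnFinite.symm (fun i => (r i : ℕ)) = m := by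
          ext i
          change q * (m i / q) + m i % q = m i
          exact Nat.div_add_mod _ _
        rw [h2]
      · intro b _ hb
        rw [Pi.single_eq_of_ne hb, zero_pow hq0, zero_mul]
      · simp
    | add f g hf hg =>
      obtain ⟨c, hc⟩ := hf
      obtain ⟨d, hd⟩ := hg
      refine ⟨c + d, ?_⟩
      rw [← hc, ← hd, ← Finset.sum_add_distrib]
      refine Finset.sum_congr rfl fun k _ => ?_
      rw [Pi.add_apply, hadd, add_mul]

end Pool.Agent.FL
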