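import Pool.Agent.Helper66.FL.Arr
import Pool.Agent.Helper66.FL.QBasis
import Pool.Agent.FLD

open MvPolynomial AlgebraicGeometry HomogeneousLocalization CategoryTheory

universe u

namespace Pool.Agent.FL

section Mat

variable {A : Type u} [CommRing A] {r : ℕ}

/-- exponents of the monomials `X ^ a Y ^ b` with `a, b < q` -/
abbrev MonIx (q : ℕ) : Type := Fin q × Fin q

variable {K : Type u} [CommRing K] [Algebra A K] (κ : MvPolynomial (Fin 2) A →ₐ[A] K)

/-- the twisting factor of the frame of a chart -/
noncomputable def twistEntry (α β : Fin r → A) (q : ℕ) (x : ChartIx r) (m : MonIx q) : K :=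
  match x with
  | .inl _ => if q ≤ (m.1 : ℕ) + m.2 then Ring.inverse (chartST κ α β x 0) else 1
  | .inr _ => chartST κ α β x 0 ^ (((m.1 : ℕ) + m.2 + (q - 1)) / q)

/-- the inverse of the twisting factor -/
noncomputable def twistInv (α β : Fin r → A) (q : ℕ) (x : ChartIx r) (m : MonIx q) : K :=
  match x with
  | .inl _ => if q ≤ (m.1 : ℕ) + m.2 then chartST κ α β x 0 else 1
  | .inr _ => Ring.inverse (chartST κ α β x 0) ^ (((m.1 : ℕ) + m.2 + (q - 1)) / q)

/-- the matrix of the substitution `X ↦ X - u i`, `Y ↦ Y - v i` on monomials -/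
def constMat (u v : Fin r → A) (q : ℕ) (x : ChartIx r) : Matrix (MonIx q) (MonIx q) A :=
  match x with
  | .inl y => Matrix.of fun k m => ((m.1 : ℕ).choose k.1 : A) * ((m.2 : ℕ).choose k.2 : A) *
      (-u y.1) ^ ((m.1 : ℕ) - k.1) * (-v y.1) ^ ((m.2 : ℕ) - k.2)
  | .inr _ => 1

/-- the frame matrix of a chart -/
noncomputable def frameG (α β u v : Fin r → A) (q : ℕ) (x : ChartIx r) :
    Matrix (MonIx q) (MonIx q) K :=
  (constMat u v q x).map (algebraMap A K) * Matrix.diagonal (twistEntry κ α β q x)

/-- the inverse of the frame matrix -/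
noncomputable def frameG' (α β u v : Fin r → A) (q : ℕ) (x : ChartIx r) :
    Matrix (MonIx q) (MonIx q) K :=
  Matrix.diagonal (twistInv κ α β q x) * (constMat (-u) (-v) q x).map (algebraMap A K)

end Mat

/-- the `q`-basis of the chart ring -/
noncomputable def frameMon {k : Type u} [CommRing k] {r : ℕ} (q : ℕ) (x : ChartIx r) (m : MonIx q) :
    MvPolynomial (Fin 2) k :=
  match x with
  | .inl (i, c) => bif c i then X 0 ^ (((m.1 : ℕ) + m.2) % q) * X 1 ^ (m.1 : ℕ)
      else X 0 ^ (((m.1 : ℕ) + m.2) % q) * X 1 ^ (m.2 : ℕ)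
  | .inr false => X 0 ^ (q * (((m.1 : ℕ) + m.2 + (q - 1)) / q) - ((m.1 : ℕ) + m.2)) * X 1 ^ (m.2 : ℕ)
  | .inr true => X 0 ^ (q * (((m.1 : ℕ) + m.2 + (q - 1)) / q) - ((m.1 : ℕ) + m.2)) * X 1 ^ (m.1 : ℕ)

noncomputable instance {n : ℕ} {R : Type u} [CommRing R] :
    GradedAlgebra (MvPolynomial.homogeneousSubmodule (Fin n) R) := MvPolynomial.gradedAlgebra

/-- a morphism to an affine scheme `Spec A` is projective: it factors as a closed immersion into a
projective space over `A` -/
def IsProjectiveOver {A : Type u} [CommRing A] {X : Scheme.{u}} (f : X ⟶ Spec (.of A)) : Prop :=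
  ∃ (N : ℕ) (i : X ⟶ Proj (MvPolynomial.homogeneousSubmodule (Fin (N + 1)) A)),
    IsClosedImmersion i ∧ i ≫ projStr (MvPolynomial.homogeneousSubmodule (Fin (N + 1)) A) = f

section ConeMap

variable {A k : Type u} [CommRing A] [CommRing k] [Algebra A k] {r : ℕ} (α β : Fin r → A)

/-- the images of the points over `k` -/
abbrev redPt (k : Type u) [CommRing k] [Algebra A k] (α : Fin r → A) : Fin r → k :=
  fun i => algebraMap A k (α i)

lemma map_coordW (j : Fin 3) : MvPolynomial.map (algebraMap A k) (coordW A j) = coordW k j := by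
  fin_cases j <;> simp [coordW]

lemma map_lin (i : Fin r) (b : Bool) : MvPolynomial.map (algebraMap A k) (lin α β i b) =
    lin (redPt k α) (redPt k β) i b := by
  cases b <;> simp [lin]

lemma map_prodLin (c : Fin r → Bool) : MvPolynomial.map (algebraMap A k) (prodLin α β c) =
    prodLin (redPt k α) (redPt k β) c := by
  unfold prodLin
  rw [map_prod]
  exact Finset.prod_congr rfl fun i _ => map_lin α β i _

lemma map_gen (x) : MvPolynomial.map (algebraMap A k) (gen α β x) =
    gen (redPt k α) (redPt k β) x := by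
  unfold gen
  rw [map_mul, map_coordW, map_prodLin]

lemma map_mem (b : MvPolynomial (Fin 2) A) (hb : b ∈ arrMod α β) :
    MvPolynomial.map (algebraMap A k) b ∈ arrMod (redPt k α) (redPt k β) := by
  unfold arrMod at hb
  induction hb using Submodule.span_induction with
  | mem x hx =>
    obtain ⟨y, rfl⟩ := hx
    rw [map_gen]
    exact gen_mem _ _ _
  | zero => rw [map_zero]; exact Submodule.zero_mem _
  | add x y _ _ hx hy => rw [map_add]; exact Submodule.add_mem _ hx hy
  | smul a x _ hx =>
    rw [← C_mul', map_mul, map_C, C_mul']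
    exact Submodule.smul_mem _ _ hx

lemma map_mem_pow (n : ℕ) (b : MvPolynomial (Fin 2) A) (hb : b ∈ arrMod α β ^ n) :
    MvPolynomial.map (algebraMap A k) b ∈ arrMod (redPt k α) (redPt k β) ^ n := by
  induction n generalizing b with
  | zero =>
    rw [pow_zero] at hb ⊢
    obtain ⟨a, rfl⟩ := Submodule.mem_one.1 hb
    rw [algebraMap_eq, map_C]
    exact Submodule.algebraMap_mem _
  | succ n ih =>
    rw [pow_succ] at hb ⊢
    refine Submodule.mul_induction_on hb ?_ ?_
    · intro x hx y hy
      rw [map_mul]
      exact Submodule.mul_mem_mul (ih x hx) (map_mem α β y hy)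
    · intro x y hx hy
      rw [map_add]; exact Submodule.add_mem _ hx hy

/-- the graded homomorphism of cone rings induced by a change of the base ring -/
noncomputable def coneMap (k : Type u) [CommRing k] [Algebra A k] (α β : Fin r → A) :
    coneGr (arrMod α β) →+*ᵍ coneGr (arrMod (redPt k α) (redPt k β)) where
  toFun p := ⟨Polynomial.map (MvPolynomial.map (algebraMap A k)) p.1, by
    intro n
    rw [Polynomial.coeff_map]
    exact map_mem_pow α β n _ (p.2 n)⟩
  map_one' := by
    apply Subtype.ext
    change Polynomial.map _ (1 : Polynomial (MvPolynomial (Fin 2) A)) = 1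
    exact Polynomial.map_one _
  map_mul' x y := by
    apply Subtype.ext
    change Polynomial.map _ (x.1 * y.1) = Polynomial.map _ x.1 * Polynomial.map _ y.1
    exact Polynomial.map_mul _
  map_zero' := by
    apply Subtype.ext
    change Polynomial.map _ (0 : Polynomial (MvPolynomial (Fin 2) A)) = 0
    exact Polynomial.map_zero _
  map_add' x y := by
    apply Subtype.ext
    change Polynomial.map _ (x.1 + y.1) = Polynomial.map _ x.1 + Polynomial.map _ y.1
    exact Polynomial.map_add _
  map_mem {n x} hx := by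
    intro m hm
    change (Polynomial.map _ x.1).coeff m = 0
    rw [Polynomial.coeff_map, hx m hm, map_zero]

lemma coneMap_val (p : coneRing (arrMod α β)) :
    (coneMap k α β p).1 = Polynomial.map (MvPolynomial.map (algebraMap A k)) p.1 := rfl

lemma coneMap_hom (n : ℕ) (b : MvPolynomial (Fin 2) A) (hb : b ∈ arrMod α β ^ n) :
    coneMap k α β (hom n b hb) = hom n (MvPolynomial.map (algebraMap A k) b)
      (map_mem_pow α β n b hb) := by
  apply Subtype.ext
  rw [coneMap_val, hom_val, hom_val, Polynomial.map_monomial]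

end ConeMap

end Pool.Agent.FL
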