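import Pool.Agent.Helper66.FL.Sheaf

open CategoryTheory AlgebraicGeometry TopologicalSpace Opposite Limits

universe u

namespace Pool.Agent.FL

variable {Y : Scheme.{u}} {n : Type} [Fintype n] {ι : Type} (U : ι → Y.Opens)
  (g : ∀ i j, Matrix n n Γ(Y, U i ⊓ U j))

/-- restricted transition relation -/
def GRel (V : Y.Opens) (s : ∀ i, n → Γ(Y, V ⊓ U i)) : Prop :=
  ∀ i j (l : n), resO (inf_le_inf_left V inf_le_left) (s i l) =
    ∑ k, resO (inf_le_right : V ⊓ (U i ⊓ U j) ≤ _) (g i j l k) *
      resO (inf_le_inf_left V inf_le_right) (s j k)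

/-- sections of the glued sheaf -/
def GSec (V : Y.Opens) : AddSubgroup (∀ i, n → Γ(Y, V ⊓ U i)) where
  carrier := {s | GRel U g V s}
  zero_mem' := by
    intro i j l
    simp
  add_mem' := by
    intro s t hs ht i j l
    simp only [Pi.add_apply, map_add, hs i j l, ht i j l, mul_add, Finset.sum_add_distrib]
  neg_mem' := by
    intro s hs i j l
    simp only [Pi.neg_apply, map_neg, hs i j l, mul_neg, Finset.sum_neg_distrib]

noncomputable instance (V : Y.Opens) : SMul Γ(Y, V) (GSec U g V) where
  smul c s := ⟨fun i k => resO inf_le_left c * s.1 i k, by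
    intro i j l
    simp only [map_mul, resO_resO]
    have := s.2 i j l
    rw [this, Finset.mul_sum]
    refine Finset.sum_congr rfl fun k _ => ?_
    ring⟩

lemma GSec.smul_val (V : Y.Opens) (c : Γ(Y, V)) (s : GSec U g V) (i : ι) (k : n) :
    (c • s).1 i k = resO inf_le_left c * s.1 i k := rfl

noncomputable instance (V : Y.Opens) : Module Γ(Y, V) (GSec U g V) where
  one_smul s := by
    apply Subtype.ext; funext i k; simp [GSec.smul_val]
  mul_smul c d s := by
    apply Subtype.ext; funext i k; simp [GSec.smul_val, mul_assoc]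
  smul_zero c := by
    apply Subtype.ext; funext i k; simp [GSec.smul_val]
  smul_add c s t := by
    apply Subtype.ext; funext i k; simp [GSec.smul_val, mul_add]
  add_smul c d s := by
    apply Subtype.ext; funext i k; simp [GSec.smul_val, add_mul]
  zero_smul s := by
    apply Subtype.ext; funext i k; simp [GSec.smul_val]

/-- restriction of sections of the glued sheaf -/
noncomputable def GSec.res {V W : Y.Opens} (h : V ≤ W) : GSec U g W →+ GSec U g V where
  toFun s := ⟨fun i k => resO (inf_le_inf_right _ h) (s.1 i k), by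
    intro i j l
    have := congrArg (resO (inf_le_inf_right (U i ⊓ U j) h)) (s.2 i j l)
    simp only [map_sum, map_mul, resO_resO] at this ⊢
    exact this⟩
  map_zero' := by apply Subtype.ext; funext i k; simp
  map_add' s t := by apply Subtype.ext; funext i k; simp

lemma GSec.res_val {V W : Y.Opens} (h : V ≤ W) (s : GSec U g W) (i : ι) (k : n) :
    (GSec.res U g h s).1 i k = resO (inf_le_inf_right _ h) (s.1 i k) := rfl

/-- the underlying presheaf of abelian groups -/
noncomputable def gluePresheaf : TopCat.Presheaf Ab Y where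
  obj V := AddCommGrpCat.of (GSec U g V.unop)
  map f := AddCommGrpCat.ofHom (GSec.res U g (leOfHom f.unop))
  map_id V := by
    ext s i k
    change (GSec.res U g (leOfHom (𝟙 V : V ⟶ V).unop) s).1 i k = s.1 i k
    rw [GSec.res_val, resO_self]
  map_comp f h := by
    ext s i k
    change (GSec.res U g (leOfHom (f ≫ h).unop) s).1 i k =
      (GSec.res U g (leOfHom h.unop) (GSec.res U g (leOfHom f.unop) s)).1 i k
    rw [GSec.res_val, GSec.res_val, GSec.res_val, resO_resO]

noncomputable instance (V : (Opens Y)ᵒᵖ) : Module ((Y.ringCatSheaf.obj.obj V : RingCat.{u}))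
    ((gluePresheaf U g).obj V) :=
  inferInstanceAs (Module Γ(Y, V.unop) (GSec U g V.unop))

/-- the glued presheaf of modules -/
noncomputable def glueMod : PresheafOfModules Y.ringCatSheaf.obj :=
  PresheafOfModules.ofPresheaf (gluePresheaf U g) (by
    intro V W f c s
    apply Subtype.ext; funext i k
    change (GSec.res U g (leOfHom f.unop) ((show Γ(Y, V.unop) from c) • (show GSec U g V.unop from s))).1 i k =
      ((resO (leOfHom f.unop) (show Γ(Y, V.unop) from c)) • (GSec.res U g (leOfHom f.unop)
        (show GSec U g V.unop from s))).1 i k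
    rw [GSec.res_val, GSec.smul_val, GSec.smul_val, GSec.res_val, map_mul, resO_resO, resO_resO])

theorem gluePresheaf_isSheaf : TopCat.Presheaf.IsSheaf (gluePresheaf U g) := by
  rw [TopCat.Presheaf.isSheaf_iff_isSheafUniqueGluing]
  intro κ V sf hcomp
  -- rewrite compatibility
  have hc : ∀ a b (i : ι) (k : n),
      resO (inf_le_inf_right (U i) (inf_le_left : V a ⊓ V b ≤ V a)) ((sf a : GSec U g (V a)).1 i k) =
      resO (inf_le_inf_right (U i) (inf_le_right : V a ⊓ V b ≤ V b)) ((sf b : GSec U g (V b)).1 i k) := by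
    intro a b i k
    have := hcomp a b
    exact congrArg (fun (z : GSec U g (V a ⊓ V b)) => z.1 i k) this
  have key : ∀ (i : ι) (k : n), ∃! t : Γ(Y, (iSup V) ⊓ U i),
      ∀ a, resO (inf_le_inf_right (U i) (le_iSup V a)) t = (sf a : GSec U g (V a)).1 i k := by
    intro i k
    refine glueO (fun a => V a ⊓ U i) _ (fun a => inf_le_inf_right (U i) (le_iSup V a)) ?_ _ ?_
    · rw [iSup_inf_eq]
    · intro a b
      have h1 := hc a b i k
      have h2 : (V a ⊓ U i) ⊓ (V b ⊓ U i) ≤ (V a ⊓ V b) ⊓ U i := by
        refine le_inf (le_inf (inf_le_left.trans inf_le_left) (inf_le_right.trans inf_le_left))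
          (inf_le_left.trans inf_le_right)
      have h3 := congrArg (resO h2) h1
      rw [resO_resO, resO_resO] at h3
      exact h3
  choose t ht htu using key
  have hmem : GRel U g (iSup V) t := by
    intro i j l
    refine extO (fun a => V a ⊓ (U i ⊓ U j)) _ (fun a => inf_le_inf_right _ (le_iSup V a)) ?_ _ _ ?_
    · rw [iSup_inf_eq]
    · intro a
      have h1 := (sf a : GSec U g (V a)).2 i j l
      rw [← ht i l a, resO_resO] at h1
      simp only [map_sum, map_mul, resO_resO]
      rw [h1]
      refine Finset.sum_congr rfl fun k _ => ?_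
      rw [← ht j k a, resO_resO]
  refine ⟨(⟨t, hmem⟩ : GSec U g (iSup V)), ?_, ?_⟩
  · intro a
    change GSec.res U g (le_iSup V a) ⟨t, hmem⟩ = sf a
    apply Subtype.ext; funext i k
    exact ht i k a
  · intro s hs
    apply Subtype.ext; funext i k
    apply htu i k
    intro a
    have := hs a
    exact congrArg (fun (z : GSec U g (V a)) => z.1 i k) this

/-- the glued sheaf -/
noncomputable def glueSheaf : Y.Modules where
  val := glueMod U g
  isSheaf := gluePresheaf_isSheaf U g

variable {U g} [DecidableEq n] (h1 : ∀ i, g i i = 1)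
  (h2 : ∀ i j k (a b : n), resO (inf_le_inf_left (U i) inf_le_right : U i ⊓ (U j ⊓ U k) ≤ U i ⊓ U k)
      (g i k a b) = ∑ c, resO (inf_le_inf_left (U i) inf_le_left : U i ⊓ (U j ⊓ U k) ≤ U i ⊓ U j)
        (g i j a c) * resO (inf_le_right : U i ⊓ (U j ⊓ U k) ≤ U j ⊓ U k) (g j k c b))

/-- the frame of the glued sheaf over `U j` -/
noncomputable def gFrame (h2 : ∀ i j k (a b : n), resO (inf_le_inf_left (U i) inf_le_right : U i ⊓ (U j ⊓ U k) ≤ U i ⊓ U k)
      (g i k a b) = ∑ c, resO (inf_le_inf_left (U i) inf_le_left : U i ⊓ (U j ⊓ U k) ≤ U i ⊓ U j)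
        (g i j a c) * resO (inf_le_right : U i ⊓ (U j ⊓ U k) ≤ U j ⊓ U k) (g j k c b))
    (j : ι) (k : n) : GSec U g (U j) :=
  ⟨fun i l => resO (le_of_eq (inf_comm _ _)) (g i j l k), by
    intro a b l
    have := h2 a b j l k
    have h3 : U j ⊓ (U a ⊓ U b) ≤ U a ⊓ (U b ⊓ U j) := by
      refine le_inf (inf_le_right.trans inf_le_left)
        (le_inf (inf_le_right.trans inf_le_right) inf_le_left)
    have h4 := congrArg (resO h3) this
    simp only [map_sum, map_mul, resO_resO] at h4 ⊢
    exact h4⟩

omit [DecidableEq n] in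
lemma gFrame_val (j : ι) (k : n) (i : ι) (l : n) :
    (gFrame h2 j k).1 i l = resO (le_of_eq (inf_comm _ _)) (g i j l k) := rfl

include h1 in
theorem gFrame_isFrame (j : ι) : IsFrame (glueSheaf U g) (fun k => (gFrame h2 j k)) := by
  intro V h
  have hval : ∀ (c : n → Γ(Y, V)) (i : ι) (l : n),
      (show GSec U g V from ∑ k, c k • resM (glueSheaf U g) h (gFrame h2 j k)).1 i l =
        ∑ k, resO inf_le_left (c k) * resO (le_inf inf_le_right (inf_le_left.trans h)) (g i j l k) := by
    intro c i l
    have h3 : ∀ (S : Finset n), (show GSec U g V from ∑ k ∈ S, c k • resM (glueSheaf U g) h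
        (gFrame h2 j k)).1 i l =
        ∑ k ∈ S, resO inf_le_left (c k) *
          resO (le_inf inf_le_right (inf_le_left.trans h)) (g i j l k) := by
      intro S
      induction S using Finset.induction_on with
      | empty => simp
      | insert a S ha ih =>
        rw [Finset.sum_insert ha, Finset.sum_insert ha, ← ih]
        change resO inf_le_left (c a) * (GSec.res U g h (gFrame h2 j a)).1 i l + _ = _
        rw [GSec.res_val, gFrame_val, resO_resO]
    exact h3 Finset.univ
  constructor
  · intro c d hcd
    funext l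
    have h4 := congrArg (fun (z : GSec U g V) => z.1 j l) hcd
    simp only at h4
    have h5 := hval c j l
    have h6 := hval d j l
    have h7 : ∀ (c : n → Γ(Y, V)), ∑ k, resO (inf_le_left : V ⊓ U j ≤ V) (c k) *
        resO (le_inf inf_le_right (inf_le_left.trans h)) (g j j l k) = resO inf_le_left (c l) := by
      intro c
      rw [Finset.sum_eq_single l]
      · rw [h1]; simp
      · intro b _ hb
        rw [h1, Matrix.one_apply_ne hb.symm]; simp
      · simp
    rw [h7] at h5 h6
    have h8 : resO (inf_le_left : V ⊓ U j ≤ V) (c l) = resO inf_le_left (d l) := by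
      rw [← h5, ← h6]; exact h4
    have h9 := congrArg (resO (le_inf le_rfl h : V ≤ V ⊓ U j)) h8
    simpa [resO_resO] using h9
  · intro s
    have hs := (show GSec U g V from s).2
    refine ⟨fun k => resO (le_inf le_rfl h) ((show GSec U g V from s).1 j k), ?_⟩
    refine Subtype.ext (funext fun i => funext fun l => ?_)
    refine (hval _ i l).trans ?_
    have h3 : V ⊓ U i ≤ V ⊓ (U i ⊓ U j) := le_inf inf_le_left (le_inf inf_le_right (inf_le_left.trans h))
    have h4 := congrArg (resO h3) (hs i j l)
    simp only [map_sum, map_mul, resO_resO] at h4 ⊢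
    rw [resO_self] at h4
    rw [h4]
    refine Finset.sum_congr rfl fun k _ => ?_
    rw [mul_comm]

include h1 h2 in
/-- Gluing of locally free sheaves: existence. -/
theorem exists_glued : ∃ (M : Y.Modules) (e : ∀ i, n → Γ(M, U i)),
    (∀ i, IsFrame M (e i)) ∧ IsTrans M e g := by
  refine ⟨glueSheaf U g, fun j k => gFrame h2 j k, fun j => gFrame_isFrame h1 h2 j, ?_⟩
  intro i j k
  refine Subtype.ext (funext fun a => funext fun b => ?_)
  have h3 : ∀ (S : Finset n), (show GSec U g (U i ⊓ U j) from ∑ l ∈ S, g i j l k •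
      resM (glueSheaf U g) inf_le_left (gFrame h2 i l)).1 a b =
      ∑ l ∈ S, resO inf_le_left (g i j l k) *
        resO (le_inf inf_le_right (inf_le_left.trans inf_le_left)) (g a i b l) := by
    intro S
    induction S using Finset.induction_on with
    | empty => simp
    | insert x S hx ih =>
      rw [Finset.sum_insert hx, Finset.sum_insert hx, ← ih]
      change resO inf_le_left (g i j x k) * (GSec.res U g inf_le_left (gFrame h2 i x)).1 a b + _ = _
      rw [GSec.res_val, gFrame_val, resO_resO]
  refine Eq.trans ?_ (h3 Finset.univ).symm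
  change (GSec.res U g inf_le_right (gFrame h2 j k)).1 a b = _
  rw [GSec.res_val, gFrame_val, resO_resO]
  have h4 : (U i ⊓ U j) ⊓ U a ≤ U a ⊓ (U i ⊓ U j) := le_of_eq (inf_comm _ _)
  have h5 := congrArg (resO h4) (h2 a i j b k)
  simp only [map_sum, map_mul, resO_resO] at h5 ⊢
  rw [h5]
  refine Finset.sum_congr rfl fun l _ => ?_
  rw [mul_comm]

end Pool.Agent.FL
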