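import Pool.Agent.Helper66.FL.Sheaf

open AlgebraicGeometry CategoryTheory HomogeneousLocalization Limits

universe u

namespace Pool.Agent.FL

section Rho

variable {A σ : Type u} [CommRing A] [SetLike σ A] [AddSubgroupClass σ A] {𝒜 : ℕ → σ} [GradedRing 𝒜]
  {K : Type u} [CommRing K] (φ : A →+* K)

/-- the map from the degree zero localisation to `K` -/
noncomputable def rho (𝒜 : ℕ → σ) [GradedRing 𝒜] {f : A} (hf : IsUnit (φ f)) : Away 𝒜 f →+* K :=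
  (Localization.awayLift φ f hf).comp (algebraMap (Away 𝒜 f) (Localization.Away f))

lemma rho_mk {f : A} (hf : IsUnit (φ f)) {d : ℕ} (hd : f ∈ 𝒜 d) (n : ℕ) (a : A) (ha : a ∈ 𝒜 (n • d)) :
    rho φ 𝒜 hf (Away.mk 𝒜 hd n a ha) * φ f ^ n = φ a := by
  unfold rho
  rw [RingHom.comp_apply, HomogeneousLocalization.algebraMap_apply, Away.val_mk,
    Localization.mk_eq_mk', ← map_pow]
  have h1 : φ (f ^ n) = Localization.awayLift φ f hf (algebraMap A (Localization.Away f) (f ^ n)) := by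
    exact (IsLocalization.Away.lift_eq f hf (f ^ n)).symm
  rw [h1, ← map_mul]
  have h2 := IsLocalization.mk'_spec (Localization.Away f) a (⟨f ^ n, n, rfl⟩ : Submonoid.powers f)
  rw [h2]
  exact IsLocalization.Away.lift_eq f hf a

lemma rho_injective (hφ : ∀ n, ∀ a ∈ 𝒜 n, φ a = 0 → a = 0) {f : A} (hf : IsUnit (φ f)) {d : ℕ}
    (hd : f ∈ 𝒜 d) : Function.Injective (rho φ 𝒜 hf) := by
  rw [injective_iff_map_eq_zero]
  intro x hx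
  obtain ⟨n, a, ha, rfl⟩ := x.mk_surjective _ hd
  have h1 := rho_mk φ hf hd n a ha
  rw [hx, zero_mul] at h1
  have h2 := hφ _ a ha h1.symm
  subst h2
  apply HomogeneousLocalization.val_injective
  rw [Away.val_mk, Localization.mk_zero, HomogeneousLocalization.val_zero]

lemma rho_awayMap {f g x : A} (hf : IsUnit (φ f)) {e : ℕ} (hg : g ∈ 𝒜 e) (hx : x = f * g)
    (hfx : IsUnit (φ x)) :
    (rho φ 𝒜 hfx).comp (awayMap 𝒜 hg hx) = rho φ 𝒜 hf := by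
  ext y
  obtain ⟨c, rfl⟩ := HomogeneousLocalization.mk_surjective y
  obtain ⟨n, a, ⟨b, hb⟩, i, rfl : _ = b⟩ := c
  unfold rho
  rw [RingHom.comp_apply, RingHom.comp_apply, RingHom.comp_apply,
    HomogeneousLocalization.algebraMap_apply, HomogeneousLocalization.algebraMap_apply,
    HomogeneousLocalization.val_awayMap]
  generalize (HomogeneousLocalization.mk _ : Away 𝒜 f).val = z
  have h1 : (Localization.awayLift φ x hfx).comp (Localization.awayLift (algebraMap A _) f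
      (isUnit_of_dvd_unit (map_dvd _ (show f ∣ x from ⟨g, hx⟩)) (IsLocalization.Away.algebraMap_isUnit x))) =
      Localization.awayLift φ f hf := by
    apply IsLocalization.ringHom_ext (Submonoid.powers f)
    ext a
    simp [Localization.awayLift, IsLocalization.Away.lift_eq]
  rw [← h1]
  rfl

end Rho

section Gen

variable {A σ : Type u} [CommRing A] [SetLike σ A] [AddSubgroupClass σ A] {𝒜 : ℕ → σ} [GradedRing 𝒜]
  {K : Type u} [CommRing K] (φ : A →+* K)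

/-- the generic point of `Proj 𝒜` attached to `φ : A → K`, computed in the chart `f` -/
noncomputable def genPt (𝒜 : ℕ → σ) [GradedRing 𝒜] {f : A} (hf : IsUnit (φ f)) {d : ℕ} (hd : f ∈ 𝒜 d)
    (h0 : 0 < d) : Spec (.of K) ⟶ Proj 𝒜 :=
  Spec.map (CommRingCat.ofHom (rho φ 𝒜 hf)) ≫ Proj.awayι 𝒜 f hd h0

lemma genPt_mul {f g x : A} (hf : IsUnit (φ f)) {d : ℕ} (hd : f ∈ 𝒜 d) (h0 : 0 < d)
    {e : ℕ} (hg : g ∈ 𝒜 e) (hx : x = f * g) (hfx : IsUnit (φ x)) (hdx : x ∈ 𝒜 (d + e))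
    (h0x : 0 < d + e) :
    genPt φ 𝒜 hfx hdx h0x = genPt φ 𝒜 hf hd h0 := by
  unfold genPt
  rw [← Proj.SpecMap_awayMap_awayι 𝒜 hd h0 hg hx, ← Category.assoc, ← Spec.map_comp,
    ← CommRingCat.ofHom_comp, rho_awayMap]

lemma genPt_indep {f g : A} (hf : IsUnit (φ f)) {d : ℕ} (hd : f ∈ 𝒜 d) (h0 : 0 < d)
    (hg : IsUnit (φ g)) {e : ℕ} (he : g ∈ 𝒜 e) (h0' : 0 < e) :
    genPt φ 𝒜 hf hd h0 = genPt φ 𝒜 hg he h0' := by
  have hfg : IsUnit (φ (f * g)) := by rw [map_mul]; exact hf.mul hg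
  have hm : f * g ∈ 𝒜 (d + e) := SetLike.mul_mem_graded hd he
  have hm' : f * g ∈ 𝒜 (e + d) := by rw [add_comm]; exact hm
  rw [← genPt_mul φ hf hd h0 he rfl hfg hm (by omega),
    ← genPt_mul φ hg he h0' hd (mul_comm f g) hfg hm' (by omega)]
  have key : ∀ (m m' : ℕ) (_ : m = m') (h1 : f * g ∈ 𝒜 m) (h2 : f * g ∈ 𝒜 m') (h3 : 0 < m)
      (h4 : 0 < m'), genPt φ 𝒜 hfg h1 h3 = genPt φ 𝒜 hfg h2 h4 := by
    intro m m' h
    subst h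
    intros
    rfl
  exact key _ _ (add_comm _ _) _ _ _ _

end Gen

/-- evaluation of functions at a point with values in `K` -/
noncomputable def kap {X : Scheme.{u}} {K : Type u} [CommRing K] (pt : Spec (.of K) ⟶ X)
    {U : X.Opens} (h : ⊤ ≤ pt ⁻¹ᵁ U) : Γ(X, U) →+* K :=
  (pt.appLE U ⊤ h ≫ (Scheme.ΓSpecIso (.of K)).hom).hom

lemma kap_res {X : Scheme.{u}} {K : Type u} [CommRing K] (pt : Spec (.of K) ⟶ X)
    {U V : X.Opens} (h : ⊤ ≤ pt ⁻¹ᵁ V) (hVU : V ≤ U) (h' : ⊤ ≤ pt ⁻¹ᵁ U) (x : Γ(X, U)) :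
    kap pt h (resO hVU x) = kap pt h' x := by
  unfold kap resO
  have h1 : X.presheaf.map (homOfLE hVU).op ≫ pt.appLE V ⊤ h = pt.appLE U ⊤ h' :=
    Scheme.Hom.map_appLE _ _ _
  rw [← h1]
  rfl

lemma kap_comp {X Y : Scheme.{u}} {K L : Type u} [CommRing K] [CommRing L] (i : X ⟶ Y)
    (ptX : Spec (.of L) ⟶ X) (ptY : Spec (.of K) ⟶ Y) (red : K →+* L)
    (hc : ptX ≫ i = Spec.map (CommRingCat.ofHom red) ≫ ptY)
    {U : Y.Opens} (h : ⊤ ≤ ptY ⁻¹ᵁ U) (h' : ⊤ ≤ ptX ⁻¹ᵁ (i ⁻¹ᵁ U)) (x : Γ(Y, U)) :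
    kap ptX h' ((i.app U).hom x) = red (kap ptY h x) := by
  unfold kap
  have h1 : i.app U ≫ ptX.appLE (i ⁻¹ᵁ U) ⊤ h' = (ptX ≫ i).appLE U ⊤ h' := by
    rw [Scheme.Hom.app_eq_appLE, Scheme.Hom.appLE_comp_appLE]
  have h2 : (Spec.map (CommRingCat.ofHom red) ≫ ptY).appLE U ⊤ (hc ▸ h') =
      ptY.appLE U ⊤ h ≫ (Spec.map (CommRingCat.ofHom red)).appLE ⊤ ⊤ le_top := by
    rw [Scheme.Hom.appLE_comp_appLE]
  have h3 : (Spec.map (CommRingCat.ofHom red)).appLE ⊤ ⊤ le_top ≫ (Scheme.ΓSpecIso (.of L)).hom =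
      (Scheme.ΓSpecIso (.of K)).hom ≫ CommRingCat.ofHom red := by
    rw [← Scheme.ΓSpecIso_naturality]
    rfl
  have h4 : i.app U ≫ ptX.appLE (i ⁻¹ᵁ U) ⊤ h' ≫ (Scheme.ΓSpecIso (.of L)).hom =
      (ptY.appLE U ⊤ h ≫ (Scheme.ΓSpecIso (.of K)).hom) ≫ CommRingCat.ofHom red := by
    rw [Category.assoc, ← h3, ← Category.assoc (ptY.appLE U ⊤ h), ← h2, ← Category.assoc, h1]
    congr 2
  exact congr($(h4).hom x)

section GenKap

variable {A σ : Type u} [CommRing A] [SetLike σ A] [AddSubgroupClass σ A] {𝒜 : ℕ → σ} [GradedRing 𝒜]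
  {K : Type u} [CommRing K] (φ : A →+* K)

lemma genPt_preimage {f : A} (hf : IsUnit (φ f)) {d : ℕ} (hd : f ∈ 𝒜 d) (h0 : 0 < d)
    {g : A} (hg : IsUnit (φ g)) {e : ℕ} (he : g ∈ 𝒜 e) (h0' : 0 < e) :
    ⊤ ≤ genPt φ 𝒜 hf hd h0 ⁻¹ᵁ Proj.basicOpen 𝒜 g := by
  rw [genPt_indep φ hf hd h0 hg he h0']
  intro x _
  unfold genPt
  change (Proj.awayι 𝒜 g he h0').base ((Spec.map (CommRingCat.ofHom (rho φ 𝒜 hg))).base x) ∈
    Proj.basicOpen 𝒜 g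
  rw [← Proj.opensRange_awayι 𝒜 g he h0']
  exact ⟨_, rfl⟩

lemma awayToSection_awayι (f : A) {d : ℕ} (hd : f ∈ 𝒜 d) (h0 : 0 < d)
    (h : ⊤ ≤ Proj.awayι 𝒜 f hd h0 ⁻¹ᵁ Proj.basicOpen 𝒜 f) :
    Proj.awayToSection 𝒜 f ≫ (Proj.awayι 𝒜 f hd h0).appLE (Proj.basicOpen 𝒜 f) ⊤ h =
      (Scheme.ΓSpecIso (.of (Away 𝒜 f))).inv := by
  have h1 : (Proj.basicOpenToSpec 𝒜 f).appTop =
      (Scheme.ΓSpecIso _).hom ≫ Proj.awayToSection 𝒜 f ≫ (Proj.basicOpen 𝒜 f).topIso.inv :=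
    Proj.basicOpenToSpec_app_top 𝒜 f
  have h2 : Proj.awayToSection 𝒜 f ≫ (Proj.basicOpen 𝒜 f).topIso.inv =
      (Scheme.ΓSpecIso (.of (Away 𝒜 f))).inv ≫ (Proj.basicOpenIsoSpec 𝒜 f hd h0).hom.appTop := by
    rw [Proj.basicOpenIsoSpec_hom, h1, Iso.inv_hom_id_assoc]
  have h3 : (Proj.awayι 𝒜 f hd h0).appLE (Proj.basicOpen 𝒜 f) ⊤ h =
      (Proj.basicOpen 𝒜 f).topIso.inv ≫ (Proj.basicOpenIsoSpec 𝒜 f hd h0).inv.appTop := by
    have h5 : (Proj.basicOpen 𝒜 f).topIso.inv =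
        (Proj.basicOpen 𝒜 f).ι.appLE (Proj.basicOpen 𝒜 f) ⊤ (by simp) := by
      rw [Scheme.Opens.ι_appLE]
      simp [Scheme.Opens.topIso]
      rfl
    have h6 : (Proj.basicOpenIsoSpec 𝒜 f hd h0).inv.appTop =
      (Proj.basicOpenIsoSpec 𝒜 f hd h0).inv.appLE ⊤ ⊤ le_top := Scheme.Hom.app_eq_appLE _
    rw [h5, h6, Scheme.Hom.appLE_comp_appLE]
    rfl
  rw [h3, ← Category.assoc, h2, Category.assoc]
  have h4 : (Proj.basicOpenIsoSpec 𝒜 f hd h0).hom.appTop ≫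
      (Proj.basicOpenIsoSpec 𝒜 f hd h0).inv.appTop = 𝟙 _ := by
    rw [← Scheme.Hom.comp_appTop, Iso.inv_hom_id, Scheme.Hom.id_appTop]
  rw [h4]
  exact Category.comp_id _

lemma kap_awayToSection {f : A} (hf : IsUnit (φ f)) {d : ℕ} (hd : f ∈ 𝒜 d) (h0 : 0 < d)
    (h : ⊤ ≤ genPt φ 𝒜 hf hd h0 ⁻¹ᵁ Proj.basicOpen 𝒜 f) (x : Away 𝒜 f) :
    kap (genPt φ 𝒜 hf hd h0) h ((Proj.awayToSection 𝒜 f).hom x) = rho φ 𝒜 hf x := by
  have h' : ⊤ ≤ Proj.awayι 𝒜 f hd h0 ⁻¹ᵁ Proj.basicOpen 𝒜 f := by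
    intro x _
    change (Proj.awayι 𝒜 f hd h0).base x ∈ Proj.basicOpen 𝒜 f
    rw [← Proj.opensRange_awayι 𝒜 f hd h0]
    exact ⟨_, rfl⟩
  have h1 : (genPt φ 𝒜 hf hd h0).appLE (Proj.basicOpen 𝒜 f) ⊤ h =
      (Proj.awayι 𝒜 f hd h0).appLE (Proj.basicOpen 𝒜 f) ⊤ h' ≫
        (Spec.map (CommRingCat.ofHom (rho φ 𝒜 hf))).appLE ⊤ ⊤ le_top := by
    rw [Scheme.Hom.appLE_comp_appLE]
    rfl
  have h3 : (Spec.map (CommRingCat.ofHom (rho φ 𝒜 hf))).appLE ⊤ ⊤ le_top ≫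
      (Scheme.ΓSpecIso (.of K)).hom =
      (Scheme.ΓSpecIso (.of (Away 𝒜 f))).hom ≫ CommRingCat.ofHom (rho φ 𝒜 hf) := by
    rw [← Scheme.ΓSpecIso_naturality]
    rfl
  have h2 : Proj.awayToSection 𝒜 f ≫ (genPt φ 𝒜 hf hd h0).appLE (Proj.basicOpen 𝒜 f) ⊤ h ≫
      (Scheme.ΓSpecIso (.of K)).hom = CommRingCat.ofHom (rho φ 𝒜 hf) := by
    rw [h1, Category.assoc, h3, ← Category.assoc, awayToSection_awayι, Iso.inv_hom_id_assoc]
  exact congr($(h2).hom x)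

end GenKap

end Pool.Agent.FL
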