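import Pool.Agent.Helper66.FL.Frob
import Pool.Agent.Helper66.FL.Glue
import Pool.Agent.Helper66.FL.ProjK

open AlgebraicGeometry CategoryTheory Limits

universe u

namespace Pool.Agent.FL

theorem assembly {X Y : Scheme.{u}} (i : X ⟶ Y) {K L : Type u} [CommRing K] [CommRing L]
    (ptX : Spec (.of L) ⟶ X) (ptY : Spec (.of K) ⟶ Y) (red : K →+* L)
    (hc : ptX ≫ i = Spec.map (CommRingCat.ofHom red) ≫ ptY)
    {ι : Type} (U : ι → Y.Opens) (hU : ⨆ i, U i = ⊤)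
    (hpt : ∀ l, ⊤ ≤ ptY ⁻¹ᵁ U l)
    (hinjY : ∀ a b c (V : Y.Opens), V = U a ⊓ (U b ⊓ U c) → ∀ (h : ⊤ ≤ ptY ⁻¹ᵁ V),
      Function.Injective (kap ptY h))
    (hinjX : ∀ a b (h : ⊤ ≤ ptX ⁻¹ᵁ (i ⁻¹ᵁ (U a ⊓ U b))), Function.Injective (kap ptX h))
    (haff : ∀ a, IsAffineOpen (i ⁻¹ᵁ U a))
    {n : Type} [Fintype n] [DecidableEq n] (G G' : ι → Matrix n n K)
    (hG : ∀ a, G a * G' a = 1) (hG' : ∀ a, G' a * G a = 1)
    (hmem : ∀ a b k l (h : ⊤ ≤ ptY ⁻¹ᵁ (U a ⊓ U b)), (G' a * G b) k l ∈ (kap ptY h).range)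
    {q : ℕ} (hq0 : q ≠ 0) (hadd : AddPow q L) {F : X ⟶ X} (hF : IsPowFrobenius q F)
    (b : ∀ a, n → Γ(X, i ⁻¹ᵁ U a)) (hb : ∀ a, QBasis q (b a))
    (ε : n → L) (hbε : ∀ a ν (h : ⊤ ≤ ptX ⁻¹ᵁ (i ⁻¹ᵁ U a)),
      kap ptX h (b a ν) = ∑ κ, ε κ * (red (G a κ ν)) ^ q) :
    ∃ (M : Y.Modules) (e : ∀ a, n → Γ(M, U a)), (∀ a, IsFrame M (e a)) ∧
      Nonempty ((Scheme.Modules.pullback i).obj M ≅ pushO F) := by
  have hpt2 : ∀ a b, ⊤ ≤ ptY ⁻¹ᵁ (U a ⊓ U b) := fun a b x hx => ⟨hpt a hx, hpt b hx⟩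
  have hpt3 : ∀ a b c, ⊤ ≤ ptY ⁻¹ᵁ (U a ⊓ (U b ⊓ U c)) := fun a b c x hx =>
    ⟨hpt a hx, hpt b hx, hpt c hx⟩
  have hptX : ∀ V : Y.Opens, ⊤ ≤ ptY ⁻¹ᵁ V → ⊤ ≤ ptX ⁻¹ᵁ (i ⁻¹ᵁ V) := by
    intro V hV
    change ⊤ ≤ (ptX ≫ i) ⁻¹ᵁ V
    rw [hc]
    intro x _
    exact hV (show (Spec.map (CommRingCat.ofHom red)).base x ∈ ⊤ from trivial)
  choose g hg using fun a b k l => hmem a b k l (hpt2 a b)
  obtain ⟨M, e, he, ht⟩ := exists_glued (Y := Y) (n := n) (U := U) (g := fun a b => Matrix.of (g a b)) (by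
    intro a
    ext k l
    apply hinjY a a a (U a ⊓ U a) (by simp) (hpt2 a a)
    change kap ptY _ (g a a k l) = _
    rw [hg, hG', Matrix.one_apply, Matrix.one_apply]
    split_ifs
    · rw [map_one]
    · rw [map_zero]) (by
    intro a b c k l
    apply hinjY a b c _ rfl (hpt3 a b c)
    rw [map_sum]
    simp only [map_mul]
    rw [kap_res ptY _ _ (hpt2 a c)]
    simp only [kap_res ptY _ _ (hpt2 a b), kap_res ptY _ _ (hpt2 b c)]
    change kap ptY _ (g a c k l) = ∑ x, kap ptY _ (g a b k x) * kap ptY _ (g b c x l)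
    simp only [hg]
    rw [← Matrix.mul_apply, Matrix.mul_assoc, ← Matrix.mul_assoc (G b), hG, Matrix.one_mul])
  refine ⟨M, e, he, ?_⟩
  refine pullback_iso_of_frames (f := i) hU M (pushO F) e (fun a k => toPush hF (b a k)) he
    (fun a => isFrame_of_qbasis hF hq0 (haff a) (b a) (hb a)) (fun a b => Matrix.of (g a b)) ht ?_
  intro a c k
  rw [toPush_res]
  simp only [toPush_res, smul_toPush]
  rw [← toPush_sum]
  congr 1
  have hXa : ⊤ ≤ ptX ⁻¹ᵁ (i ⁻¹ᵁ (U a ⊓ U c)) := hptX _ (hpt2 a c)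
  apply hinjX a c hXa
  have h1 : kap ptX hXa (resO (X := X) (V := i ⁻¹ᵁ (U a ⊓ U c)) (W := i ⁻¹ᵁ U c) (i.preimage_mono inf_le_right) (b c k)) =
      kap ptX (hptX _ (hpt c)) (b c k) := kap_res ptX _ _ _ _
  have h2 : ∀ l, kap ptX hXa (resO (X := X) (V := i ⁻¹ᵁ (U a ⊓ U c)) (W := i ⁻¹ᵁ U a) (i.preimage_mono inf_le_left) (b a l)) =
      kap ptX (hptX _ (hpt a)) (b a l) := fun l => kap_res ptX _ _ _ _
  have h3 : ∀ l, kap ptX hXa ((i.app (U a ⊓ U c)).hom (g a c l k)) = red ((G' a * G c) l k) := by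
    intro l
    rw [kap_comp i ptX ptY red hc (hpt2 a c), hg]
  refine h1.trans (Eq.trans ?_ (map_sum (kap ptX hXa) _ _).symm)
  rw [hbε]
  refine Eq.symm ?_
  calc _ = ∑ x, (red ((G' a * G c) x k)) ^ q * ∑ κ, ε κ * (red (G a κ x)) ^ q := by
        refine Finset.sum_congr rfl fun x _ => ?_
        refine (map_mul (kap ptX hXa) _ _).trans ?_
        refine congrArg₂ (· * ·) ((map_pow (kap ptX hXa) _ _).trans
          (congrArg (· ^ q) (h3 x))) ((h2 x).trans (hbε _ _ _))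
    _ = ∑ κ, ε κ * ∑ x, (red (G a κ x) * red ((G' a * G c) x k)) ^ q := by
        simp only [Finset.mul_sum]
        rw [Finset.sum_comm]
        refine Finset.sum_congr rfl fun κ _ => Finset.sum_congr rfl fun x _ => ?_
        rw [mul_pow]; ring
    _ = ∑ κ, ε κ * (red (G c κ k)) ^ q := by
        refine Finset.sum_congr rfl fun κ _ => ?_
        congr 1
        have h4 : ∀ (S : Finset n) (z : n → L), ∑ x ∈ S, z x ^ q = (∑ x ∈ S, z x) ^ q := by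
          intro S z
          induction S using Finset.induction_on with
          | empty => simp [zero_pow hq0]
          | insert a S ha ih => rw [Finset.sum_insert ha, Finset.sum_insert ha, hadd, ih]
        rw [h4]
        congr 1
        simp only [← map_mul]
        rw [← map_sum, ← Matrix.mul_apply, ← Matrix.mul_assoc, hG, Matrix.one_mul]

end Pool.Agent.FL
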