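import Pool.Agent.Helper66.FL.ArrDefs
import Pool.Agent.FLF

open MvPolynomial AlgebraicGeometry HomogeneousLocalization CategoryTheory

universe u

namespace Pool.Agent.FL

/-- the projective plane over `k` -/
noncomputable abbrev P2 (k : Type u) [CommRing k] : Scheme.{u} :=
  Proj (MvPolynomial.homogeneousSubmodule (Fin 3) k)

/-- the structure morphism of the projective plane -/
noncomputable abbrev strP2 (k : Type u) [CommRing k] : P2 k ⟶ Spec (.of k) :=
  projStr (MvPolynomial.homogeneousSubmodule (Fin 3) k)

/-- The inverse image of the ideal sheaf `I` under `g : T ⟶ Y` is an invertible ideal sheaf: near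
every point of `T` it is generated by one element that is not a zero divisor. -/
def IsInvertibleAlong {T Y : Scheme.{u}} (I : Y.IdealSheafData) (g : T ⟶ Y) : Prop :=
  ∀ t : T, ∃ (U : Y.affineOpens) (V : T.affineOpens) (hVU : V.1 ≤ g ⁻¹ᵁ U.1), t ∈ V.1 ∧
    ∃ a ∈ nonZeroDivisors Γ(T, V.1), (I.ideal U).map (g.appLE U.1 V.1 hVU).hom = Ideal.span {a}

/-- `π : X ⟶ Y` is the blow-up of the ideal sheaf `I`: the inverse image of `I` is invertible, and
`π` is universal with this property. -/
structure IsBlowUp {X Y : Scheme.{u}} (π : X ⟶ Y) (I : Y.IdealSheafData) : Prop where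
  invertible : IsInvertibleAlong I π
  existsUnique : ∀ {T : Scheme.{u}} (g : T ⟶ Y), IsInvertibleAlong I g → ∃! h : T ⟶ X, h ≫ π = g

/-- the ideal sheaf of functions vanishing at the `k`-valued points `P i` -/
noncomputable def idealOfPts {k : Type u} [CommRing k] {Y : Scheme.{u}} {r : ℕ}
    (P : Fin r → (Spec (.of k) ⟶ Y)) : Y.IdealSheafData := ⨅ i, (P i).ker

section PtP

variable {k B : Type u} [CommRing k] [CommRing B]

/-- evaluation of polynomials in the homogeneous coordinates -/
noncomputable def evalP (c : k →+* B) (ξ : Fin 3 → B) : MvPolynomial (Fin 3) k →+* B :=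
  eval₂Hom c ξ

lemma evalP_X (c : k →+* B) (ξ : Fin 3 → B) (j : Fin 3) : evalP c ξ (X j) = ξ j :=
  eval₂Hom_X' c ξ j

lemma evalP_C (c : k →+* B) (ξ : Fin 3 → B) (a : k) : evalP c ξ (C a) = c a :=
  eval₂Hom_C c ξ a

lemma isUnit_evalP (c : k →+* B) {ξ : Fin 3 → B} {j : Fin 3} (hj : IsUnit (ξ j)) :
    IsUnit (evalP c ξ (X j)) := by
  rw [evalP_X]; exact hj

/-- the `B`-valued point of the projective plane with homogeneous coordinates `ξ` -/
noncomputable def ptP (c : k →+* B) (ξ : Fin 3 → B) (j : Fin 3)
    (hj : IsUnit (ξ j)) : Spec (.of B) ⟶ P2 k :=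
  genPt (evalP c ξ) (homogeneousSubmodule (Fin 3) k) (isUnit_evalP c hj)
    (show X j ∈ homogeneousSubmodule (Fin 3) k 1 from isHomogeneous_X k j) Nat.one_pos

end PtP

/-- the `k`-point `[1 : a : b]` of the projective plane -/
noncomputable def affPt {k : Type u} [CommRing k] (a b : k) : Spec (.of k) ⟶ P2 k :=
  ptP (RingHom.id k) ![1, a, b] 0 isUnit_one

/-- the ideal sheaf of the finite set of points `[1 : α i : β i]` -/
noncomputable def idealPts {k : Type u} [CommRing k] {r : ℕ} (α β : Fin r → k) :
    (P2 k).IdealSheafData := idealOfPts fun i => affPt (α i) (β i)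

/-- the homogeneous linear form `x₁ - α i x₀` (for `false`) or `x₂ - β i x₀` (for `true`) -/
noncomputable def linH {k : Type u} [CommRing k] {r : ℕ} (α β : Fin r → k) (i : Fin r) (c : Bool) :
    MvPolynomial (Fin 3) k :=
  bif c then X 2 - C (β i) * X 0 else X 1 - C (α i) * X 0

/-- the equation of the open subset of the plane below the chart -/
noncomputable def baseElt {k : Type u} [CommRing k] {r : ℕ} (α β : Fin r → k) (x : ChartIx r) :
    MvPolynomial (Fin 3) k :=
  X (chartJ x) * ∏ l ∈ chartD x, linH α β l (chartC x l)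

lemma linH_mem {k : Type u} [CommRing k] {r : ℕ} (α β : Fin r → k) (i : Fin r) (c : Bool) :
    linH α β i c ∈ homogeneousSubmodule (Fin 3) k 1 := by
  rw [mem_homogeneousSubmodule]
  have h1 : ∀ a : k, ∀ j : Fin 3, (C a * X j : MvPolynomial (Fin 3) k).IsHomogeneous 1 := by
    intro a j
    have := (isHomogeneous_C (Fin 3) a).mul (isHomogeneous_X k j)
    simpa using this
  cases c
  · exact (isHomogeneous_X k 1).sub (h1 _ _)
  · exact (isHomogeneous_X k 2).sub (h1 _ _)

lemma baseElt_mem {k : Type u} [CommRing k] {r : ℕ} (α β : Fin r → k) (x : ChartIx r) :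
    baseElt α β x ∈ homogeneousSubmodule (Fin 3) k ((chartD x).card + 1) := by
  rw [mem_homogeneousSubmodule]
  have h1 := IsHomogeneous.prod (chartD x) (fun l => linH α β l (chartC x l)) (fun _ => 1)
    (fun l _ => (mem_homogeneousSubmodule _ _).1 (linH_mem α β l (chartC x l)))
  rw [Finset.sum_const, smul_eq_mul, mul_one] at h1
  rw [add_comm]
  exact (isHomogeneous_X k (chartJ x)).mul h1

/-- the affine open subset of the plane below the chart -/
noncomputable def baseOpen {k : Type u} [CommRing k] {r : ℕ} (α β : Fin r → k) (x : ChartIx r) :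
    (P2 k).affineOpens :=
  ⟨Proj.basicOpen (homogeneousSubmodule (Fin 3) k) (baseElt α β x),
    Proj.isAffineOpen_basicOpen _ _ (baseElt_mem α β x) (Nat.succ_pos _)⟩

section Atlas

variable {k : Type u} [Field k] {r : ℕ} (α β : Fin r → k)

/-- the function field of the plane -/
abbrev FK (k : Type u) [Field k] : Type u := FractionRing (MvPolynomial (Fin 2) k)

/-- inclusion of the polynomial ring into the function field -/
noncomputable def kapF (k : Type u) [Field k] : MvPolynomial (Fin 2) k →ₐ[k] FK k :=
  IsScalarTower.toAlgHom k (MvPolynomial (Fin 2) k) (FK k)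

lemma lin_ne_zero' (i : Fin r) (b : Bool) : lin α β i b ≠ 0 := by
  intro h
  cases b
  · have := congrArg (eval (fun _ => α i + 1)) h
    simp [lin] at this
  · have := congrArg (eval (fun _ => β i + 1)) h
    simp [lin] at this

lemma kapF_injective : Function.Injective (kapF k) :=
  IsFractionRing.injective (MvPolynomial (Fin 2) k) (FK k)

lemma isGeneric_kapF : IsGeneric α β (kapF k) where
  inj := kapF_injective
  unit_coord j := by
    rw [isUnit_iff_ne_zero, map_ne_zero_iff _ kapF_injective]
    fin_cases j
    · exact one_ne_zero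
    · exact X_ne_zero _
    · exact X_ne_zero _
  unit_lin i b := by
    rw [isUnit_iff_ne_zero, map_ne_zero_iff _ kapF_injective]
    exact lin_ne_zero' α β i b

/-- the coordinate ring of a chart -/
abbrev CR (x : ChartIx r) : Type u := Localization.Away (chartH α β x)

lemma isUnit_theta_chartH (x : ChartIx r) : IsUnit (theta (kapF k) α β x (chartH α β x)) := by
  rw [isUnit_iff_ne_zero]
  unfold chartH
  rw [map_prod, Finset.prod_ne_zero_iff]
  intro l _ h
  have h1 := theta_linP (kapF k) α β (isGeneric_kapF α β) x l (chartC x l)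
  rw [h, zero_mul] at h1
  exact ((isGeneric_kapF α β).unit_lin l (chartC x l)).ne_zero h1.symm

/-- the coordinate ring of a chart as a subring of the function field -/
noncomputable def toK (x : ChartIx r) : CR α β x →+* FK k :=
  Localization.awayLift (theta (kapF k) α β x).toRingHom (chartH α β x) (isUnit_theta_chartH α β x)

lemma toK_algebraMap (x : ChartIx r) (f : MvPolynomial (Fin 2) k) :
    toK α β x (algebraMap _ (CR α β x) f) = theta (kapF k) α β x f :=
  IsLocalization.Away.lift_eq (chartH α β x) (isUnit_theta_chartH α β x) f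

/-- constants in the coordinate ring of a chart -/
noncomputable def chartConst (x : ChartIx r) : k →+* CR α β x :=
  (algebraMap (MvPolynomial (Fin 2) k) (CR α β x)).comp C

/-- the homogeneous coordinates of the plane in a chart (divided by the coordinate `chartJ x`) -/
noncomputable def chartXi (x : ChartIx r) (m : Fin 3) : CR α β x :=
  algebraMap _ (CR α β x) (coordP α β x m)

lemma coordP_chartJ (x : ChartIx r) : coordP α β x (chartJ x) = 1 := by
  rcases x with ⟨i, c⟩ | b
  · cases h : c i <;> simp [coordP, chartJ, h]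
  · cases b <;> simp [coordP, chartJ]

lemma isUnit_chartXi (x : ChartIx r) : IsUnit (chartXi α β x (chartJ x)) := by
  unfold chartXi
  rw [coordP_chartJ, map_one]
  exact isUnit_one

/-- A scheme `X` over the plane glued from the charts of the blow-up. -/
structure Atlas (X : Scheme.{u}) where
  /-- the charts -/
  chart : ∀ x : ChartIx r, Spec (.of (CR α β x)) ⟶ X
  openImm : ∀ x, IsOpenImmersion (chart x)
  cover : ⨆ x, (chart x).opensRange = ⊤
  /-- the projection to the plane -/
  π : X ⟶ P2 k
  chart_π : ∀ x, chart x ≫ π = ptP (chartConst α β x) (chartXi α β x) (chartJ x) (isUnit_chartXi α β x)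
  /-- the generic point -/
  gen : Spec (.of (FK k)) ⟶ X
  gen_eq : ∀ x, gen = Spec.map (CommRingCat.ofHom (toK α β x)) ≫ chart x
  sep : X.IsSeparated

end Atlas

end Pool.Agent.FL
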