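import Pool.Agent.Helper66.FL.Rees
import Pool.Agent.Helper66.FL.ProjK

open HomogeneousLocalization

universe u

namespace Pool.Agent.FL

section Gev

variable {A B K : Type u} [CommRing A] [CommRing B] [Algebra A B] [CommRing K]
  (M : Submodule A B) (κ : B →+* K)

/-- evaluate at `T = 1` and map to `K` -/
noncomputable def gev : coneRing M →+* K :=
  κ.comp ((Polynomial.evalRingHom 1).comp (coneRing M).val.toRingHom)

lemma gev_hom (n : ℕ) (b : B) (hb : b ∈ M ^ n) : gev M κ (hom n b hb) = κ b := by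
  change κ ((Polynomial.monomial n b).eval 1) = κ b
  simp

lemma gev_zero (hκ : Function.Injective κ) (n : ℕ) (a : coneRing M) (ha : a ∈ coneGr M n)
    (h : gev M κ a = 0) : a = 0 := by
  rw [eq_hom ha, gev_hom] at h
  have h1 : a.1.coeff n = 0 := hκ (by rw [h, map_zero])
  rw [eq_hom ha]
  apply Subtype.ext
  rw [hom_val, h1, Polynomial.monomial_zero_right]
  rfl

end Gev

section Chart

variable {A B K P : Type u} [CommRing A] [CommRing B] [Algebra A B] [CommRing K] [Algebra A K]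
  [CommRing P] [Algebra A P] (M : Submodule A B) (κ : B →ₐ[A] K) (θ : P →ₐ[A] K)

/-- elements of the image of the chart ring in `K` -/
lemma mem_range_rho {n : ℕ} {f : B} (hf : f ∈ M ^ n) (hu : IsUnit (gev M κ.toRingHom (hom n f hf)))
    (y : K) : y ∈ Set.range (rho (gev M κ.toRingHom) (coneGr M) hu) ↔
      ∃ (m : ℕ) (g : B), g ∈ M ^ (m * n) ∧ y * κ f ^ m = κ g := by
  have hd : hom n f hf ∈ coneGr M n := hom_mem n f hf
  have e1 : gev M κ.toRingHom (hom n f hf) = κ f := gev_hom M _ n f hf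
  constructor
  · rintro ⟨x, rfl⟩
    obtain ⟨m, a, ha, rfl⟩ := x.mk_surjective _ hd
    refine ⟨m, a.1.coeff (m * n), a.2 _, ?_⟩
    have h1 := rho_mk (gev M κ.toRingHom) hu hd m a ha
    rw [e1] at h1
    rw [h1]
    have h2 : a = hom (m * n) (a.1.coeff (m * n)) (a.2 _) := eq_hom ha
    conv_lhs => rw [h2]
    exact gev_hom M _ _ _ _
  · rintro ⟨m, g, hg, h⟩
    refine ⟨Away.mk _ hd m (hom (m * n) g hg) (hom_mem _ _ _), ?_⟩
    have h1 := rho_mk (gev M κ.toRingHom) hu hd m (hom (m * n) g hg) (hom_mem _ _ _)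
    have h3 : IsUnit (gev M κ.toRingHom (hom n f hf) ^ m) := hu.pow m
    apply h3.mul_right_cancel
    rw [h1, e1, gev_hom]
    exact h.symm

theorem exists_chart (hκ : Function.Injective κ) (hθ : Function.Injective θ) {d : ℕ} {f1 f2 : B}
    (hf1 : f1 ∈ M) (hf2 : f2 ∈ M ^ d) (hf : f1 * f2 ∈ M ^ (d + 1))
    (u1 : IsUnit (κ f1)) (u2 : IsUnit (κ f2))
    (hu : IsUnit (gev M κ.toRingHom (hom (d + 1) (f1 * f2) hf)))
    (h : P) (hh : θ h * κ f1 ^ d = κ f2)
    (hM : ∀ φ ∈ M, ∃ (p : P) (m : ℕ), κ φ * θ h ^ m = θ p * κ f1)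
    (S : Set P) (hS : Algebra.adjoin A S = ⊤) (hSM : ∀ s ∈ S, ∃ φ ∈ M, θ s * κ f1 = κ φ) :
    ∃ ψ : P →+* Away (coneGr M) (hom (d + 1) (f1 * f2) hf),
      (∀ p, rho (gev M κ.toRingHom) (coneGr M) hu (ψ p) = θ p) ∧
      @IsLocalization.Away _ _ h _ _ ψ.toAlgebra := by
  set ρ := rho (gev M κ.toRingHom) (coneGr M) hu with hρ
  have hρi : Function.Injective ρ :=
    rho_injective _ (gev_zero M _ hκ) hu (hom_mem (d + 1) (f1 * f2) hf)
  have hmem := mem_range_rho M κ hf hu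
  have hθL : ∀ p, θ p ∈ Set.range ρ := by
    intro p
    have hp : p ∈ Algebra.adjoin A S := by rw [hS]; trivial
    induction hp using Algebra.adjoin_induction with
    | mem s hs =>
      obtain ⟨φ, hφ, h1⟩ := hSM s hs
      rw [hmem]
      refine ⟨1, φ * f2, ?_, ?_⟩
      · rw [one_mul, pow_succ', ]
        exact Submodule.mul_mem_mul hφ hf2
      · rw [pow_one, map_mul, map_mul, ← mul_assoc, h1]
    | algebraMap a =>
      rw [hmem]
      refine ⟨0, algebraMap A B a, ?_, ?_⟩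
      · rw [zero_mul, pow_zero]
        exact Submodule.algebraMap_mem a
      · rw [pow_zero, mul_one, AlgHom.commutes, AlgHom.commutes]
    | add x y _ _ hx hy =>
      obtain ⟨a, ha⟩ := hx
      obtain ⟨b, hb⟩ := hy
      exact ⟨a + b, by rw [map_add, map_add, ha, hb]⟩
    | mul x y _ _ hx hy =>
      obtain ⟨a, ha⟩ := hx
      obtain ⟨b, hb⟩ := hy
      exact ⟨a * b, by rw [map_mul, map_mul, ha, hb]⟩
  choose ψ0 hψ0 using hθL
  let ψ : P →+* Away (coneGr M) (hom (d + 1) (f1 * f2) hf) :=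
    { toFun := ψ0
      map_one' := hρi (by rw [hψ0, map_one, map_one])
      map_mul' := fun x y => hρi (by rw [hψ0, map_mul, map_mul, hψ0, hψ0])
      map_zero' := hρi (by rw [hψ0, map_zero, map_zero])
      map_add' := fun x y => hρi (by rw [hψ0, map_add, map_add, hψ0, hψ0]) }
  have hψ : ∀ p, ρ (ψ p) = θ p := hψ0
  refine ⟨ψ, hψ, ?_⟩
  have uh : IsUnit (θ h) := by
    have : IsUnit (θ h * κ f1 ^ d) := by rw [hh]; exact u2
    exact isUnit_of_mul_isUnit_left this
  -- the inverse of h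
  have hinv : ∃ z, ρ z * θ h = 1 := by
    obtain ⟨v, hv⟩ := uh.exists_left_inv
    have : v ∈ Set.range ρ := by
      rw [hmem]
      refine ⟨1, f1 ^ (d + 1), ?_, ?_⟩
      · rw [one_mul]; exact Submodule.pow_mem_pow M hf1 (d + 1)
      · rw [pow_one, map_mul, map_pow, ← hh, pow_succ]
        calc v * (κ f1 * (θ h * κ f1 ^ d)) = (v * θ h) * (κ f1 ^ d * κ f1) := by ring
          _ = _ := by rw [hv, one_mul]
    obtain ⟨z, hz⟩ := this
    exact ⟨z, by rw [hz, hv]⟩
  have hMn : ∀ (n : ℕ) (g : B), g ∈ M ^ n → ∃ (p : P) (m : ℕ), κ g * θ h ^ m = θ p * κ f1 ^ n := by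
    intro n
    induction n with
    | zero =>
      intro g hg
      rw [pow_zero] at hg
      obtain ⟨a, rfl⟩ := Submodule.mem_one.1 hg
      exact ⟨algebraMap A P a, 0, by simp⟩
    | succ n ih =>
      intro g hg
      rw [pow_succ] at hg
      refine Submodule.mul_induction_on hg ?_ ?_
      · intro x hx y hy
        obtain ⟨p, m, h1⟩ := ih x hx
        obtain ⟨p', m', h2⟩ := hM y hy
        refine ⟨p * p', m + m', ?_⟩
        rw [map_mul, map_mul, pow_add, pow_succ]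
        calc κ x * κ y * (θ h ^ m * θ h ^ m') = (κ x * θ h ^ m) * (κ y * θ h ^ m') := by ring
          _ = _ := by rw [h1, h2]; ring
      · rintro x y ⟨p, m, h1⟩ ⟨p', m', h2⟩
        refine ⟨p * h ^ m' + p' * h ^ m, m + m', ?_⟩
        rw [map_add, map_add, map_mul, map_mul, map_pow, map_pow, pow_add]
        calc (κ x + κ y) * (θ h ^ m * θ h ^ m') = (κ x * θ h ^ m) * θ h ^ m' + (κ y * θ h ^ m') * θ h ^ m := by ring
          _ = _ := by rw [h1, h2]; ring
  let := ψ.toAlgebra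
  have halg : ∀ p, algebraMap P (Away (coneGr M) (hom (d + 1) (f1 * f2) hf)) p = ψ p := fun _ => rfl
  refine ⟨?_, ?_, ?_⟩
  · rintro ⟨_, n, rfl⟩
    rw [halg, map_pow]
    apply IsUnit.pow
    obtain ⟨z, hz⟩ := hinv
    refine IsUnit.of_mul_eq_one z ?_
    apply hρi
    rw [map_mul, map_one, hψ, mul_comm, hz]
  · intro x
    obtain ⟨m, g, hg, h1⟩ := (hmem (ρ x)).1 ⟨x, rfl⟩
    obtain ⟨p, N, h2⟩ := hMn _ g hg
    refine ⟨(p, ⟨h ^ (m + N), m + N, rfl⟩), ?_⟩
    rw [halg, halg]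
    apply hρi
    rw [map_mul, hψ, hψ]
    change ρ x * θ (h ^ (m + N)) = θ p
    have h3 : IsUnit (κ f1 ^ (m * (d + 1))) := u1.pow _
    apply h3.mul_right_cancel
    rw [← h2, ← h1, map_mul, ← hh, map_pow]
    ring
  · intro x y hxy
    rw [halg, halg] at hxy
    have h1 := congrArg ρ hxy
    rw [hψ, hψ] at h1
    exact ⟨1, by rw [hθ h1]⟩

end Chart

end Pool.Agent.FL
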