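import Pool.Agent.FLE
import Pool.Agent.FLF
import Pool.Agent.FLG
import Pool.Agent.FLH
import Pool.Agent.FLI
import Pool.Agent.FLJ
import Pool.Agent.Helper66.FL.Assembly
import Pool.Agent.FLB

open MvPolynomial AlgebraicGeometry HomogeneousLocalization CategoryTheory

universe u

namespace Pool.Agent.FL

section

variable {A σ : Type u} [CommRing A] [SetLike σ A] [AddSubgroupClass σ A] {𝒜 : ℕ → σ} [GradedRing 𝒜]

lemma awayToSection_bijective {f : A} {d : ℕ} (hd : f ∈ 𝒜 d) (h0 : 0 < d) :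
    Function.Bijective (Proj.awayToSection 𝒜 f).hom := by
  have : IsIso (Proj.awayToSection 𝒜 f) := by
    rw [← Proj.basicOpenIsoAway_hom 𝒜 f hd h0]; infer_instance
  exact ConcreteCategory.bijective_of_isIso (Proj.awayToSection 𝒜 f)

end

section KapProj

variable {A σ : Type u} [CommRing A] [SetLike σ A] [AddSubgroupClass σ A] {𝒜 : ℕ → σ} [GradedRing 𝒜]
  {K : Type u} [CommRing K] (φ : A →+* K)

/-- `pt` is the point of `Proj` given by `φ` -/
def IsGenPt (pt : Spec (.of K) ⟶ Proj 𝒜) : Prop :=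
  ∀ (f : A) (hf : IsUnit (φ f)) (d : ℕ) (hd : f ∈ 𝒜 d) (h0 : 0 < d), pt = genPt φ 𝒜 hf hd h0

lemma isGenPt_genPt {f : A} (hf : IsUnit (φ f)) {d : ℕ} (hd : f ∈ 𝒜 d) (h0 : 0 < d) :
    IsGenPt φ (genPt φ 𝒜 hf hd h0) := fun _ _ _ _ _ => genPt_indep _ _ _ _ _ _ _

variable {φ} {pt : Spec (.of K) ⟶ Proj 𝒜} (hpt : IsGenPt φ pt)

include hpt

lemma IsGenPt.preimage {f : A} (hf : IsUnit (φ f)) {d : ℕ} (hd : f ∈ 𝒜 d) (h0 : 0 < d) :
    ⊤ ≤ pt ⁻¹ᵁ Proj.basicOpen 𝒜 f := by
  rw [hpt f hf d hd h0]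
  exact genPt_preimage φ hf hd h0 hf hd h0

lemma IsGenPt.kap_away {f : A} (hf : IsUnit (φ f)) {d : ℕ} (hd : f ∈ 𝒜 d) (h0 : 0 < d)
    (h : ⊤ ≤ pt ⁻¹ᵁ Proj.basicOpen 𝒜 f) (x : Away 𝒜 f) :
    kap pt h ((Proj.awayToSection 𝒜 f).hom x) = rho φ 𝒜 hf x := by
  have h1 := hpt f hf d hd h0
  subst h1
  exact kap_awayToSection φ hf hd h0 h x

lemma IsGenPt.kap_injective (hφ : ∀ n, ∀ a ∈ 𝒜 n, φ a = 0 → a = 0) {f : A} (hf : IsUnit (φ f)) {d : ℕ}
    (hd : f ∈ 𝒜 d) (h0 : 0 < d) (V : (Proj 𝒜).Opens) (hV : V = Proj.basicOpen 𝒜 f)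
    (h : ⊤ ≤ pt ⁻¹ᵁ V) : Function.Injective (kap pt h) := by
  subst hV
  intro x y hxy
  obtain ⟨x, rfl⟩ := (awayToSection_bijective hd h0).2 x
  obtain ⟨y, rfl⟩ := (awayToSection_bijective hd h0).2 y
  rw [hpt.kap_away hf hd h0, hpt.kap_away hf hd h0] at hxy
  rw [rho_injective φ hφ hf hd hxy]

end KapProj

section Compat

variable {A B σ τ : Type u} [CommRing A] [SetLike σ A] [AddSubgroupClass σ A]
  [CommRing B] [SetLike τ B] [AddSubgroupClass τ B]
  {𝒜 : ℕ → σ} {ℬ : ℕ → τ} [GradedRing 𝒜] [GradedRing ℬ]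
  {K L : Type u} [CommRing K] [CommRing L]

lemma rho_map (f : 𝒜 →+*ᵍ ℬ) (φ : A →+* K) (ψ : B →+* L) (red : K →+* L)
    (h : ∀ a, ψ (f a) = red (φ a)) {s : A} {d : ℕ} (hs : s ∈ 𝒜 d) (hu : IsUnit (φ s))
    (hu' : IsUnit (ψ (f s))) (x : Away 𝒜 s) :
    rho ψ ℬ hu' (Away.map f s x) = red (rho φ 𝒜 hu x) := by
  obtain ⟨n, a, ha, rfl⟩ := x.mk_surjective _ hs
  rw [Away.map_mk]
  have h1 := rho_mk φ hu hs n a ha
  have h2 := rho_mk ψ hu' (f.2 hs) n (f a) (f.2 ha)
  have h3 : IsUnit (ψ (f s) ^ n) := hu'.pow n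
  apply h3.mul_right_cancel
  refine h2.trans ?_
  rw [h a, ← h1, map_mul, map_pow, h]

lemma genPt_comp_map (f : 𝒜 →+*ᵍ ℬ)
    (hf : HomogeneousIdeal.irrelevant ℬ ≤ (HomogeneousIdeal.irrelevant 𝒜).map f)
    (φ : A →+* K) (ψ : B →+* L) (red : K →+* L)
    (h : ∀ a, ψ (f a) = red (φ a)) {s : A} {d : ℕ} (hs : s ∈ 𝒜 d) (h0 : 0 < d) (hu : IsUnit (φ s))
    (hu' : IsUnit (ψ (f s))) :
    genPt ψ ℬ hu' (f.2 hs) h0 ≫ Proj.map f hf =
      Spec.map (CommRingCat.ofHom red) ≫ genPt φ 𝒜 hu hs h0 := by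
  unfold genPt
  rw [Category.assoc, Proj.awayι_comp_map f hf h0 s hs, ← Category.assoc, ← Category.assoc,
    ← Spec.map_comp, ← Spec.map_comp, ← CommRingCat.ofHom_comp, ← CommRingCat.ofHom_comp]
  congr 3
  ext x
  exact rho_map f φ ψ red h hs hu hu' x

end Compat

section GenK

variable {A : Type u} [CommRing A] {r : ℕ} (α β : Fin r → A)

/-- the product of the coordinates and of all linear forms -/
noncomputable def disc : MvPolynomial (Fin 2) A :=
  X 0 * X 1 * ∏ i, (lin α β i false * lin α β i true)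

/-- the ring of functions on the complement of the coordinate axes and of all the lines -/
abbrev GenK : Type u := Localization.Away (disc α β)

/-- the inclusion of the polynomial ring -/
noncomputable def kapB : MvPolynomial (Fin 2) A →ₐ[A] GenK α β :=
  IsScalarTower.toAlgHom A (MvPolynomial (Fin 2) A) (GenK α β)

lemma kapB_apply (f : MvPolynomial (Fin 2) A) :
    kapB α β f = algebraMap (MvPolynomial (Fin 2) A) (GenK α β) f := rfl

lemma isUnit_of_dvd_disc {f : MvPolynomial (Fin 2) A} (h : f ∣ disc α β) :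
    IsUnit (kapB α β f) :=
  isUnit_of_dvd_unit (map_dvd _ h) (IsLocalization.Away.algebraMap_isUnit (disc α β))

lemma lin_dvd_disc (i : Fin r) (b : Bool) : lin α β i b ∣ disc α β := by
  unfold disc
  refine Dvd.dvd.mul_left (Dvd.dvd.trans ?_ (Finset.dvd_prod_of_mem _ (Finset.mem_univ i))) _
  cases b
  · exact dvd_mul_right _ _
  · exact dvd_mul_left _ _

lemma lin_ne_zero [Nontrivial A] (i : Fin r) (b : Bool) : lin α β i b ≠ 0 := by
  intro h
  cases b
  · have := congrArg (eval (fun _ => α i + 1)) h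
    simp [lin] at this
  · have := congrArg (eval (fun _ => β i + 1)) h
    simp [lin] at this

lemma disc_ne_zero [IsDomain A] : disc α β ≠ 0 := by
  unfold disc
  refine mul_ne_zero (mul_ne_zero (X_ne_zero _) (X_ne_zero _)) ?_
  rw [Finset.prod_ne_zero_iff]
  intro i _
  exact mul_ne_zero (lin_ne_zero _ _ _ _) (lin_ne_zero _ _ _ _)

lemma isGeneric_kapB [IsDomain A] : IsGeneric α β (kapB α β) where
  inj := IsLocalization.injective (M := Submonoid.powers (disc α β)) _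
    (powers_le_nonZeroDivisors_of_noZeroDivisors (disc_ne_zero α β))
  unit_coord j := by
    fin_cases j
    · simp [coordW]
    · refine isUnit_of_dvd_disc α β ?_
      simp only [coordW, disc]
      exact Dvd.intro _ (by rw [mul_assoc]; rfl)
    · refine isUnit_of_dvd_disc α β ?_
      simp only [coordW, disc]
      exact Dvd.dvd.mul_right (dvd_mul_left _ _) _
  unit_lin i b := isUnit_of_dvd_disc α β (lin_dvd_disc α β i b)

variable (k : Type u) [CommRing k] [Algebra A k]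

lemma map_disc : MvPolynomial.map (algebraMap A k) (disc α β) = disc (redPt k α) (redPt k β) := by
  unfold disc
  rw [map_mul, map_mul, map_prod, map_X, map_X]
  congr 1
  refine Finset.prod_congr rfl fun i _ => ?_
  rw [map_mul, map_lin, map_lin]

lemma isUnit_red_disc : IsUnit (((algebraMap (MvPolynomial (Fin 2) k)
    (GenK (redPt k α) (redPt k β))).comp (MvPolynomial.map (algebraMap A k))) (disc α β)) := by
  rw [RingHom.comp_apply, map_disc]
  exact IsLocalization.Away.algebraMap_isUnit _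

/-- reduction of the generic ring -/
noncomputable def redK : GenK α β →+* GenK (redPt k α) (redPt k β) :=
  Localization.awayLift ((algebraMap (MvPolynomial (Fin 2) k) (GenK (redPt k α) (redPt k β))).comp
    (MvPolynomial.map (algebraMap A k))) (disc α β) (isUnit_red_disc α β k)

lemma redK_kapB (f : MvPolynomial (Fin 2) A) :
    redK α β k (kapB α β f) = kapB _ _ (MvPolynomial.map (algebraMap A k) f) :=
  IsLocalization.Away.lift_eq (disc α β) (isUnit_red_disc α β k) f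

end GenK

end Pool.Agent.FL
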