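import Pool.Agent.Helper66.FL.Fin1

open MvPolynomial AlgebraicGeometry HomogeneousLocalization CategoryTheory

universe u

namespace Pool.Agent.FL

section Str

variable {R A : Type u} [CommRing R] [CommRing A] [Algebra R A]
    (𝒜 : ℕ → Submodule R A) [GradedAlgebra 𝒜]

lemma awayToSection_algebraMap {n : ℕ} (hn : 0 < n) (s : A) (hs : s ∈ 𝒜 n) (a : R) :
    (Proj.awayToSection 𝒜 s).hom (fromZeroRingHom 𝒜 (Submonoid.powers s) (algebraMap R (𝒜 0) a)) =
      ((projStr 𝒜).appLE ⊤ (Proj.basicOpen 𝒜 s) le_top).hom ((Scheme.ΓSpecIso (.of R)).inv.hom a) := by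
  have h' : ⊤ ≤ Proj.awayι 𝒜 s hs hn ⁻¹ᵁ Proj.basicOpen 𝒜 s := by
    intro x _
    change (Proj.awayι 𝒜 s hs hn).base x ∈ Proj.basicOpen 𝒜 s
    rw [← Proj.opensRange_awayι 𝒜 s hs hn]
    exact ⟨_, rfl⟩
  -- the restriction to the chart is an isomorphism
  have h1 := awayToSection_awayι (𝒜 := 𝒜) s hs hn h'
  have hbij : Function.Bijective ((Proj.awayι 𝒜 s hs hn).appLE (Proj.basicOpen 𝒜 s) ⊤ h').hom := by
    have h2 := awayToSection_bijective (𝒜 := 𝒜) hs hn
    have h3 : Function.Bijective (Scheme.ΓSpecIso (.of (Away 𝒜 s))).inv.hom :=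
      ConcreteCategory.bijective_of_isIso _
    rw [← h1] at h3
    rw [CommRingCat.hom_comp, RingHom.coe_comp] at h3
    exact (Function.Bijective.of_comp_iff _ h2).1 h3
  apply hbij.1
  have h4 : ((Proj.awayToSection 𝒜 s) ≫ (Proj.awayι 𝒜 s hs hn).appLE (Proj.basicOpen 𝒜 s) ⊤ h').hom
      (fromZeroRingHom 𝒜 (Submonoid.powers s) (algebraMap R (𝒜 0) a)) =
      (Scheme.ΓSpecIso (.of (Away 𝒜 s))).inv.hom
        (fromZeroRingHom 𝒜 (Submonoid.powers s) (algebraMap R (𝒜 0) a)) := by rw [h1]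
  refine h4.trans ?_
  have h5 : (projStr 𝒜).appLE ⊤ (Proj.basicOpen 𝒜 s) le_top ≫
      (Proj.awayι 𝒜 s hs hn).appLE (Proj.basicOpen 𝒜 s) ⊤ h' =
      (Spec.map (CommRingCat.ofHom ((fromZeroRingHom 𝒜 (Submonoid.powers s)).comp
        (algebraMap R (𝒜 0))))).appTop := by
    rw [Scheme.Hom.appLE_comp_appLE]
    have h6 : (Spec.map (CommRingCat.ofHom ((fromZeroRingHom 𝒜 (Submonoid.powers s)).comp
        (algebraMap R (𝒜 0))))).appTop = (Spec.map (CommRingCat.ofHom ((fromZeroRingHom 𝒜 (Submonoid.powers s)).comp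
        (algebraMap R (𝒜 0))))).appLE ⊤ ⊤ le_top := Scheme.Hom.app_eq_appLE _
    rw [h6]
    congr 1
    exact awayι_projStr 𝒜 hn s hs
  have h7 := Scheme.ΓSpecIso_inv_naturality (CommRingCat.ofHom ((fromZeroRingHom 𝒜 (Submonoid.powers s)).comp
        (algebraMap R (𝒜 0))))
  rw [← h5] at h7
  exact congr($(h7).hom a)

end Str

section ChartSec

variable {A : Type u} [CommRing A] [IsDomain A] {r : ℕ} (α β : Fin r → A)

/-- the map of the graded ring to the generic ring -/
noncomputable abbrev gevA : coneRing (arrMod α β) →+* GenK α β :=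
  gev (arrMod α β) (kapB α β).toRingHom

lemma exists_chart_section (x : ChartIx r) :
    IsUnit (gevA α β (chartElt α β x)) ∧
    ∃ ψ : MvPolynomial (Fin 2) A →+* Γ(arrProj α β, Proj.basicOpen (coneGr (arrMod α β)) (chartElt α β x)),
      (∀ (pt : Spec (.of (GenK α β)) ⟶ arrProj α β) (_ : IsGenPt (gevA α β) pt) (h) (f),
        kap pt h (ψ f) = theta (kapB α β) α β x f) ∧
      (∀ a, ψ (C a) = ((projStr (coneGr (arrMod α β))).appLE ⊤
        (Proj.basicOpen (coneGr (arrMod α β)) (chartElt α β x)) le_top).hom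
          ((Scheme.ΓSpecIso (.of A)).inv.hom a)) ∧
      @IsLocalization.Away _ _ (chartH α β x)
        Γ(arrProj α β, Proj.basicOpen (coneGr (arrMod α β)) (chartElt α β x)) _ ψ.toAlgebra := by
  obtain ⟨hu, ψ, h1, h2, h3⟩ := exists_chart_arr (kapB α β) α β (isGeneric_kapB α β) x
  have hm := chartElt_mem α β x
  have h0 : 0 < (chartD x).card + 1 := Nat.succ_pos _
  refine ⟨hu, (Proj.awayToSection (coneGr (arrMod α β)) (chartElt α β x)).hom.comp ψ, ?_, ?_, ?_⟩
  · intro pt hpt h f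
    rw [RingHom.comp_apply, hpt.kap_away hu hm h0, h1]
  · intro a
    rw [RingHom.comp_apply, h2]
    exact awayToSection_algebraMap _ h0 _ hm a
  · let e := RingEquiv.ofBijective _ (awayToSection_bijective (𝒜 := coneGr (arrMod α β)) hm h0)
    let alg1 := ψ.toAlgebra
    let alg2 := ((Proj.awayToSection (coneGr (arrMod α β)) (chartElt α β x)).hom.comp ψ).toAlgebra
    let e' : Away (coneGr (arrMod α β)) (chartElt α β x) ≃ₐ[MvPolynomial (Fin 2) A]
        Γ(arrProj α β, Proj.basicOpen (coneGr (arrMod α β)) (chartElt α β x)) :=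
      AlgEquiv.ofRingEquiv (f := e) (fun z => rfl)
    have h4 : IsLocalization (Submonoid.powers (chartH α β x))
      (Away (coneGr (arrMod α β)) (chartElt α β x)) := h3
    exact IsLocalization.isLocalization_of_algEquiv (Submonoid.powers (chartH α β x)) e'

end ChartSec

end Pool.Agent.FL
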