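import Pool.Agent.Helper66.FL.Fin2

open MvPolynomial AlgebraicGeometry HomogeneousLocalization CategoryTheory

universe u

namespace Pool.Agent.FL

/-- a sheaf of modules is locally free of finite rank -/
def IsLocallyFree {X : Scheme.{u}} (M : X.Modules) : Prop :=
  ∀ x : X, ∃ (U : X.Opens) (_ : x ∈ U) (n : ℕ) (e : Fin n → Γ(M, U)), IsFrame M e

lemma IsFrame.reindex {X : Scheme.{u}} {M : X.Modules} {n m : Type} [Fintype n] [Fintype m]
    {U : X.Opens} {e : n → Γ(M, U)} (he : IsFrame M e) (σ : m ≃ n) : IsFrame M (fun k => e (σ k)) := by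
  intro V h
  have h1 : (fun c : m → Γ(X, V) => ∑ k, c k • resM M h (e (σ k))) =
      (fun c : n → Γ(X, V) => ∑ k, c k • resM M h (e k)) ∘ (fun c k => c (σ.symm k)) := by
    funext c
    simp only [Function.comp]
    rw [← Equiv.sum_comp σ]
    simp
  rw [h1]
  refine (he V h).comp ?_
  exact (Equiv.arrowCongr σ (Equiv.refl _)).bijective

lemma isLocallyFree_of_frames {X : Scheme.{u}} {M : X.Modules} {ι : Type} {U : ι → X.Opens}
    (hU : ⨆ i, U i = ⊤) {n : Type} [Fintype n] {e : ∀ i, n → Γ(M, U i)} (he : ∀ i, IsFrame M (e i)) :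
    IsLocallyFree M := by
  classical
  intro x
  have hx : x ∈ ⨆ i, U i := by rw [hU]; trivial
  obtain ⟨i, hi⟩ := TopologicalSpace.Opens.mem_iSup.1 hx
  exact ⟨U i, hi, Fintype.card n, _, (he i).reindex (Fintype.equivFin n).symm⟩

lemma ring_inverse_eq {K : Type*} [CommRing K] {a b : K} (h : a * b = 1) : Ring.inverse b = a := by
  have hb : IsUnit b := IsUnit.of_mul_eq_one a (by rw [mul_comm]; exact h)
  have h1 := Ring.mul_inverse_cancel b hb
  calc Ring.inverse b = (a * b) * Ring.inverse b := by rw [h, one_mul]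
    _ = a * (b * Ring.inverse b) := by ring
    _ = a := by rw [h1, mul_one]

section Main

variable (p : ℕ) [Fact p.Prime] {R k : Type u} [CommRing R] [IsDomain R] [Field k] [CharP k p]
  [PerfectRing k p] [Algebra R k]

theorem arr_lift (hs : Function.Surjective (algebraMap R k)) {r : ℕ} (hr : 0 < r)
    (α β : Fin r → R) (hd : ∀ i j, i ≠ j → IsUnit (α i - α j) ∨ IsUnit (β i - β j)) (e : ℕ)
    (F : arrProj (redPt k α) (redPt k β) ⟶ arrProj (redPt k α) (redPt k β))
    (hF : IsPowFrobenius (p ^ e) F) :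
    ∃ M : (arrProj α β).Modules, IsLocallyFree M ∧
      Nonempty ((Scheme.Modules.pullback
        (Proj.map (coneMap k α β) (coneMap_irrelevant α β))).obj M ≅ pushO F) := by
  classical
  have hp : p.Prime := Fact.out
  have hq0 : p ^ e ≠ 0 := pow_ne_zero _ hp.ne_zero
  -- abbreviations
  set φA := gevA α β with hφA
  set φk := gevA (redPt k α) (redPt k β) with hφk
  have hcompat : ∀ a, φk (coneMap k α β a) = redK α β k (φA a) := by
    intro a
    change kapB _ _ ((Polynomial.map (MvPolynomial.map (algebraMap R k)) a.1).eval 1) =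
      redK α β k (kapB α β (a.1.eval 1))
    rw [redK_kapB]
    congr 1
    have h1 := Polynomial.eval_map_apply (MvPolynomial.map (algebraMap R k)) (p := a.1) (1 : MvPolynomial (Fin 2) R)
    rw [map_one] at h1
    exact h1
  have huA : ∀ x : ChartIx r, IsUnit (φA (chartElt α β x)) := fun x => (exists_chart_section α β x).1
  have huk : ∀ x : ChartIx r, IsUnit (φk (chartElt (redPt k α) (redPt k β) x)) := fun x =>
    (exists_chart_section (redPt k α) (redPt k β) x).1
  have huk' : ∀ x : ChartIx r, IsUnit (φk (coneMap k α β (chartElt α β x))) := fun x => by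
    rw [coneMap_chartElt]; exact huk x
  let x0 : ChartIx r := Sum.inr false
  have h0 : ∀ x : ChartIx r, 0 < (chartD x).card + 1 := fun x => Nat.succ_pos _
  let ptY : Spec (.of (GenK α β)) ⟶ arrProj α β :=
    genPt φA (coneGr (arrMod α β)) (huA x0) (chartElt_mem α β x0) (h0 x0)
  let ptX : Spec (.of (GenK (redPt k α) (redPt k β))) ⟶ arrProj (redPt k α) (redPt k β) :=
    genPt φk (coneGr (arrMod (redPt k α) (redPt k β))) (huk' x0)
      ((coneMap k α β).2 (chartElt_mem α β x0)) (h0 x0)
  have hY : IsGenPt φA ptY := isGenPt_genPt _ _ _ _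
  have hX : IsGenPt φk ptX := isGenPt_genPt _ _ _ _
  have hc : ptX ≫ Proj.map (coneMap k α β) (coneMap_irrelevant α β) =
      Spec.map (CommRingCat.ofHom (redK α β k)) ≫ ptY :=
    genPt_comp_map _ _ φA φk (redK α β k) hcompat (chartElt_mem α β x0) (h0 x0) (huA x0) (huk' x0)
  -- roots of the coordinates
  have hroot : ∀ z : k, ∃ w : k, w ^ p ^ e = z := by
    intro z
    obtain ⟨w, hw⟩ := (bijective_iterateFrobenius k p e).2 z
    exact ⟨w, hw⟩
  have hrootA : ∀ z : Fin r → R, ∃ w : Fin r → R, ∀ i, (redPt k w i) ^ p ^ e = redPt k z i := by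
    intro z
    have h1 : ∀ i, ∃ w : R, (algebraMap R k w) ^ p ^ e = redPt k z i := by
      intro i
      obtain ⟨w, hw⟩ := hroot (redPt k z i)
      obtain ⟨w', rfl⟩ := hs w
      exact ⟨w', hw⟩
    choose w hw using h1
    exact ⟨w, hw⟩
  obtain ⟨u, hu⟩ := hrootA α
  obtain ⟨v, hv⟩ := hrootA β
  have hgA := isGeneric_kapB α β
  have hgk := isGeneric_kapB (redPt k α) (redPt k β)
  have hzA := gev_zero (arrMod α β) (kapB α β).toRingHom hgA.inj
  have hzk := gev_zero (arrMod (redPt k α) (redPt k β)) (kapB (redPt k α) (redPt k β)).toRingHom hgk.inj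
  -- the opens
  let U : ChartIx r → (arrProj α β).Opens := fun x => Proj.basicOpen (coneGr (arrMod α β)) (chartElt α β x)
  have hUtop : ⨆ x, U x = ⊤ := iSup_basicOpen_chart α β hr hd
  have hptU : ∀ x, ⊤ ≤ ptY ⁻¹ᵁ U x := fun x => hY.preimage (huA x) (chartElt_mem α β x) (h0 x)
  have hinjY : ∀ a b c (V : (arrProj α β).Opens), V = U a ⊓ (U b ⊓ U c) →
      ∀ (h : ⊤ ≤ ptY ⁻¹ᵁ V), Function.Injective (kap ptY h) := by
    intro a b c V hV h
    refine hY.kap_injective hzA
      (f := chartElt α β a * (chartElt α β b * chartElt α β c)) ?_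
      (SetLike.mul_mem_graded (chartElt_mem α β a)
        (SetLike.mul_mem_graded (chartElt_mem α β b) (chartElt_mem α β c))) ?_ V ?_ h
    · rw [map_mul, map_mul]
      exact (huA a).mul ((huA b).mul (huA c))
    · exact Nat.add_pos_left (h0 a) _
    · rw [hV, Proj.basicOpen_mul, Proj.basicOpen_mul]
  have hinjX : ∀ a b (h : ⊤ ≤ ptX ⁻¹ᵁ ((Proj.map (coneMap k α β) (coneMap_irrelevant α β)) ⁻¹ᵁ (U a ⊓ U b))),
      Function.Injective (kap ptX h) := by
    intro a b h
    refine hX.kap_injective hzk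
      (f := coneMap k α β (chartElt α β a) * coneMap k α β (chartElt α β b)) ?_
      (SetLike.mul_mem_graded ((coneMap k α β).2 (chartElt_mem α β a))
        ((coneMap k α β).2 (chartElt_mem α β b))) ?_ _ ?_ h
    · rw [map_mul]
      exact (huk' a).mul (huk' b)
    · exact Nat.add_pos_left (h0 a) _
    · rw [Proj.basicOpen_mul]; rfl
  have haff : ∀ a, IsAffineOpen ((Proj.map (coneMap k α β) (coneMap_irrelevant α β)) ⁻¹ᵁ U a) := fun a =>
    Proj.isAffineOpen_basicOpen _ (coneMap k α β (chartElt α β a))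
      ((coneMap k α β).2 (chartElt_mem α β a)) (h0 a)
  -- functions on the overlaps of charts over `R`
  have hmem : ∀ a b (k l : MonIx (p ^ e)) (h : ⊤ ≤ ptY ⁻¹ᵁ (U a ⊓ U b)),
      (frameG' (kapB α β) α β u v (p ^ e) a * frameG (kapB α β) α β u v (p ^ e) b) k l ∈
        (kap ptY h).range := by
    intro a b m l h
    obtain ⟨-, ψa, ha1, ha2, ha3⟩ := exists_chart_section α β a
    obtain ⟨-, ψb, hb1, hb2, hb3⟩ := exists_chart_section α β b
    have key1 : ∀ f, theta (kapB α β) α β a f ∈ (kap ptY h).range := by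
      intro f
      refine ⟨resO (inf_le_left : U a ⊓ U b ≤ U a) (ψa f), ?_⟩
      rw [kap_res ptY h _ (hptU a), ha1 ptY hY]
    have key2 : ∀ f, theta (kapB α β) α β b f ∈ (kap ptY h).range := by
      intro f
      refine ⟨resO (inf_le_right : U a ⊓ U b ≤ U b) (ψb f), ?_⟩
      rw [kap_res ptY h _ (hptU b), hb1 ptY hY]
    have key3 : Ring.inverse (theta (kapB α β) α β a (chartH α β a)) ∈ (kap ptY h).range := by
      let := ψa.toAlgebra
      have h1 : IsUnit (ψa (chartH α β a)) := IsLocalization.Away.algebraMap_isUnit (chartH α β a)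
      obtain ⟨z, hz⟩ := h1.exists_left_inv
      have h2 : kap ptY (hptU a) z * theta (kapB α β) α β a (chartH α β a) = 1 := by
        rw [← ha1 ptY hY (hptU a), ← map_mul, hz, map_one]
      rw [ring_inverse_eq h2]
      exact ⟨resO (inf_le_left : U a ⊓ U b ≤ U a) z, kap_res ptY h _ (hptU a) z⟩
    have key4 : Ring.inverse (theta (kapB α β) α β b (chartH α β b)) ∈ (kap ptY h).range := by
      let := ψb.toAlgebra
      have h1 : IsUnit (ψb (chartH α β b)) := IsLocalization.Away.algebraMap_isUnit (chartH α β b)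
      obtain ⟨z, hz⟩ := h1.exists_left_inv
      have h2 : kap ptY (hptU b) z * theta (kapB α β) α β b (chartH α β b) = 1 := by
        rw [← hb1 ptY hY (hptU b), ← map_mul, hz, map_one]
      rw [ring_inverse_eq h2]
      exact ⟨resO (inf_le_right : U a ⊓ U b ≤ U b) z, kap_res ptY h _ (hptU b) z⟩
    let O : Subalgebra R (GenK α β) :=
      { (kap ptY h).range with
        algebraMap_mem' := by
          intro z
          have h1 := key1 (algebraMap R _ z)
          rw [AlgHom.commutes] at h1
          exact h1 }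
    exact frameG_mem (kapB α β) α β u v hgA (p ^ e) a b O key1 key3 key2 key4 m l
  -- the frames over the special fibre
  have hframes : ∀ a, ∃ b : MonIx (p ^ e) → Γ(arrProj (redPt k α) (redPt k β),
      (Proj.map (coneMap k α β) (coneMap_irrelevant α β)) ⁻¹ᵁ U a), QBasis (p ^ e) b ∧
      ∀ m (h : ⊤ ≤ ptX ⁻¹ᵁ ((Proj.map (coneMap k α β) (coneMap_irrelevant α β)) ⁻¹ᵁ U a)),
        kap ptX h (b m) = theta (kapB (redPt k α) (redPt k β)) (redPt k α) (redPt k β) a
          (frameMon (p ^ e) a m) := by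
    intro a
    have h1 : (Proj.map (coneMap k α β) (coneMap_irrelevant α β)) ⁻¹ᵁ U a =
        Proj.basicOpen (coneGr (arrMod (redPt k α) (redPt k β))) (chartElt (redPt k α) (redPt k β) a) := by
      rw [← coneMap_chartElt]
      rfl
    generalize (Proj.map (coneMap k α β) (coneMap_irrelevant α β)) ⁻¹ᵁ U a = V at h1
    subst h1
    obtain ⟨-, ψ, hψ1, hψ2, hψ3⟩ := exists_chart_section (redPt k α) (redPt k β) a
    refine ⟨fun m => ψ (frameMon (p ^ e) a m), ?_, fun m h => hψ1 ptX hX h _⟩
    let := ψ.toAlgebra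
    have hadd : AddPow (p ^ e) (MvPolynomial (Fin 2) k) :=
      addPow_of_char hp e (by rw [CharP.cast_eq_zero])
    exact (qbasis_frameMon (k := k) p e a).localization hq0 hadd _ (chartH (redPt k α) (redPt k β) a)
  choose b hb hbk using hframes
  have hadd : AddPow (p ^ e) (GenK (redPt k α) (redPt k β)) := by
    refine addPow_of_char hp e ?_
    have h1 : ((p : ℕ) : GenK (redPt k α) (redPt k β)) =
        algebraMap k (GenK (redPt k α) (redPt k β)) (p : k) := by rw [map_natCast]
    rw [h1, CharP.cast_eq_zero, map_zero]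
  obtain ⟨M, fr, hfr, hiso⟩ := assembly (Proj.map (coneMap k α β) (coneMap_irrelevant α β)) ptX ptY
    (redK α β k) hc U hUtop hptU hinjY hinjX haff
    (fun a => frameG (kapB α β) α β u v (p ^ e) a) (fun a => frameG' (kapB α β) α β u v (p ^ e) a)
    (fun a => frameG_mul _ _ _ _ _ hgA _ _) (fun a => frameG'_mul _ _ _ _ _ hgA _ _)
    hmem hq0 hadd hF b hb
    (fun m => kapB (redPt k α) (redPt k β) (X 0) ^ (m.1 : ℕ) * kapB (redPt k α) (redPt k β) (X 1) ^ (m.2 : ℕ))
    (by
      intro a m h
      rw [hbk, theta_frameMon p (kapB (redPt k α) (redPt k β)) (redPt k α) (redPt k β) (redPt k u)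
        (redPt k v) hgk e hu hv a m]
      refine Finset.sum_congr rfl fun z _ => ?_
      rw [frameG_map (kapB α β) α β u v (kapB (redPt k α) (redPt k β)) (redK α β k) hgA hgk
        (redK_kapB α β k) (p ^ e) a z m])
  exact ⟨M, isLocallyFree_of_frames hUtop hfr, hiso⟩

end Main

end Pool.Agent.FL
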