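import Pool.Agent.Helper66.FL.Fin3

open MvPolynomial AlgebraicGeometry HomogeneousLocalization CategoryTheory

universe u

namespace Pool.Agent.FL

/-- functions on a scheme over a ring of characteristic `p` have characteristic `p` -/
lemma addPow_sections {p : ℕ} (hp : p.Prime) (e : ℕ) {k : Type u} [CommRing k] [CharP k p]
    {X : Scheme.{u}} (f : X ⟶ Spec (.of k)) (U : X.Opens) : AddPow (p ^ e) Γ(X, U) := by
  refine addPow_of_char hp e ?_
  have h1 := map_natCast ((f.appLE ⊤ U le_top).hom.comp (Scheme.ΓSpecIso (.of k)).inv.hom) p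
  have h2 : ((p : ℕ) : (CommRingCat.of k)) = 0 := CharP.cast_eq_zero k p
  rw [← h1, h2, map_zero]

/-- a quasi-coherent (here: any) sheaf of modules `E` on a scheme `X` over a field `k` lifts to
characteristic zero: there are a complete discrete valuation ring `R` of characteristic zero with
residue field `k`, a smooth projective scheme `Y` over `R` of relative dimension two with special
fibre `X`, and a locally free sheaf on `Y` whose restriction to `X` is `E` -/
def LiftsToCharZero {k : Type u} [Field k] {X : Scheme.{u}} (f : X ⟶ Spec (.of k)) (E : X.Modules) :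
    Prop :=
  ∃ (R : Type u) (_ : CommRing R) (_ : IsDomain R) (_ : IsDiscreteValuationRing R) (_ : CharZero R)
    (_ : IsAdicComplete (IsLocalRing.maximalIdeal R) R) (red : R →+* k)
    (_ : Function.Surjective red) (Y : Scheme.{u}) (g : Y ⟶ Spec (.of R)) (i : X ⟶ Y),
    SmoothOfRelativeDimension 2 g ∧ IsProjectiveOver g ∧
    IsPullback i f g (Spec.map (CommRingCat.ofHom red)) ∧
    ∃ M : Y.Modules, IsLocallyFree M ∧ Nonempty ((Scheme.Modules.pullback i).obj M ≅ E)

theorem smooth_arr {A : Type u} [CommRing A] [IsDomain A] {r : ℕ} (hr : 0 < r) (α β : Fin r → A)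
    (hd : ∀ i j, i ≠ j → IsUnit (α i - α j) ∨ IsUnit (β i - β j)) :
    SmoothOfRelativeDimension 2 (projStr (coneGr (arrMod α β))) := by
  choose h0 ψ h1 h2 h3 using fun x => exists_chart_section α β x
  exact smooth_of_charts (projStr (coneGr (arrMod α β)))
    (fun x => Proj.basicOpen (coneGr (arrMod α β)) (chartElt α β x))
    (fun x => Proj.isAffineOpen_basicOpen _ _ (chartElt_mem α β x) (Nat.succ_pos _))
    (iSup_basicOpen_chart α β hr hd) (fun x => chartH α β x) ψ h3 h2

theorem lifts_arr (p : ℕ) [Fact p.Prime] (k : Type u) [Field k] [CharP k p] [PerfectRing k p]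
    {r : ℕ} (hr : 0 < r) (α β : Fin r → k) (hd : Function.Injective fun i => (α i, β i)) (e : ℕ) :
    (∃ F : arrProj α β ⟶ arrProj α β, IsPowFrobenius (p ^ e) F) ∧
    ∀ F : arrProj α β ⟶ arrProj α β, IsPowFrobenius (p ^ e) F →
      LiftsToCharZero (projStr (coneGr (arrMod α β))) (pushO F) := by
  have hp : p.Prime := Fact.out
  refine ⟨⟨powFrob (pow_ne_zero _ hp.ne_zero)
    (fun U => addPow_sections hp e (projStr (coneGr (arrMod α β))) U),
    isPowFrobenius_powFrob _ _⟩, ?_⟩
  intro F hF
  obtain ⟨R, _, _, _, _, hcomp, red, hs, hker⟩ := exists_wittLift p k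
  let := red.toAlgebra
  have hs' : Function.Surjective (algebraMap R k) := hs
  obtain ⟨α', rfl⟩ : ∃ α' : Fin r → R, redPt k α' = α := by
    choose w hw using fun i => hs' (α i)
    exact ⟨w, funext hw⟩
  obtain ⟨β', rfl⟩ : ∃ β' : Fin r → R, redPt k β' = β := by
    choose w hw using fun i => hs' (β i)
    exact ⟨w, funext hw⟩
  have hunit : ∀ z : R, algebraMap R k z ≠ 0 → IsUnit z := by
    intro z hz
    by_contra hc
    have h1 : z ∈ IsLocalRing.maximalIdeal R := hc
    rw [← hker] at h1
    exact hz h1
  have hd' : ∀ i j, i ≠ j → IsUnit (α' i - α' j) ∨ IsUnit (β' i - β' j) := by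
    intro i j hij
    by_contra hc
    rw [not_or] at hc
    refine hij (hd ?_)
    have h1 : algebraMap R k (α' i - α' j) = 0 := by
      by_contra h; exact hc.1 (hunit _ h)
    have h2 : algebraMap R k (β' i - β' j) = 0 := by
      by_contra h; exact hc.2 (hunit _ h)
    rw [map_sub, sub_eq_zero] at h1 h2
    exact Prod.ext h1 h2
  obtain ⟨M, hM, hiso⟩ := arr_lift p (R := R) (k := k) hs' hr α' β' hd' e F hF
  exact ⟨R, inferInstance, inferInstance, inferInstance, inferInstance, hcomp, red, hs,
    arrProj α' β', projStr (coneGr (arrMod α' β')),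
    Proj.map (coneMap k α' β') (coneMap_irrelevant α' β'),
    smooth_arr hr α' β' hd', isProjective_arr α' β',
    isPullback_arr α' β' hr hd' (kapB α' β') (kapB _ _) (redK α' β' k) (isGeneric_kapB α' β')
      (isGeneric_kapB _ _) (redK_kapB α' β' k), M, hM, hiso⟩

end Pool.Agent.FL
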