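import Pool.Agent.Helper66.FL.Sheaf
import Pool.Agent.Helper66.FL.QBasis

open CategoryTheory AlgebraicGeometry TopologicalSpace Opposite Limits

universe u

namespace Pool.Agent.FL

/-- `F` is the `q`-power Frobenius endomorphism of `X`: the identity on points and `s ↦ s ^ q`
on functions. -/
structure IsPowFrobenius {X : Scheme.{u}} (q : ℕ) (F : X ⟶ X) : Prop where
  preimage : ∀ U : X.Opens, F ⁻¹ᵁ U = U
  app : ∀ (U : X.Opens) (s : Γ(X, U)), (F.app U).hom s = resO (preimage U).le (s ^ q)

variable {X : Scheme.{u}}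

/-- the `q`-power map as a ring homomorphism -/
def powHom {q : ℕ} (hq0 : q ≠ 0) {B : Type*} [CommRing B] (h : AddPow q B) : B →+* B where
  toFun x := x ^ q
  map_one' := one_pow q
  map_mul' x y := mul_pow x y q
  map_zero' := zero_pow hq0
  map_add' := h

/-- construction of the Frobenius -/
noncomputable def powFrobPre {q : ℕ} (hq0 : q ≠ 0) (hadd : ∀ U : X.Opens, AddPow q Γ(X, U)) :
    X.toPresheafedSpace.Hom X.toPresheafedSpace where
  base := 𝟙 _
  c :=
    { app := fun U => CommRingCat.ofHom (powHom hq0 (hadd U.unop))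
      naturality := by
        intro U V f
        ext s
        change (X.presheaf.map f s) ^ q = X.presheaf.map f (s ^ q)
        rw [map_pow] }

lemma powFrobPre_isLocal {q : ℕ} (hq0 : q ≠ 0) (hadd : ∀ U : X.Opens, AddPow q Γ(X, U)) (x : X) :
    IsLocalHom ((powFrobPre hq0 hadd).stalkMap x).hom := by
  constructor
  intro a ha
  obtain ⟨U, hxU, s, rfl⟩ := X.presheaf.exists_germ_eq a
  have h1 : ((powFrobPre hq0 hadd).stalkMap x).hom ((X.presheaf.germ U x hxU).hom s) =
      ((X.presheaf.germ U x hxU).hom s) ^ q := by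
    have := PresheafedSpace.stalkMap_germ (powFrobPre hq0 hadd) U x hxU
    have h2 := congr($(this).hom s)
    refine h2.trans ?_
    change (X.presheaf.germ U x hxU).hom (s ^ q) = _
    rw [map_pow]
  have ha' : IsUnit (((powFrobPre hq0 hadd).stalkMap x).hom ((X.presheaf.germ U x hxU).hom s)) := ha
  rw [h1] at ha'
  exact (isUnit_pow_iff hq0).1 ha'

/-- the `q`-power Frobenius endomorphism of a scheme on which `s ↦ s ^ q` is additive -/
noncomputable def powFrob {q : ℕ} (hq0 : q ≠ 0) (hadd : ∀ U : X.Opens, AddPow q Γ(X, U)) : X ⟶ X :=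
  ⟨⟨powFrobPre hq0 hadd, powFrobPre_isLocal hq0 hadd⟩⟩

lemma isPowFrobenius_powFrob {q : ℕ} (hq0 : q ≠ 0) (hadd : ∀ U : X.Opens, AddPow q Γ(X, U)) :
    IsPowFrobenius q (powFrob hq0 hadd) where
  preimage U := rfl
  app U s := by
    exact (resO_self (X := X) (W := U) le_rfl (s ^ q)).symm

section Frames

variable {q : ℕ} {F : X ⟶ X} (hF : IsPowFrobenius q F)

/-- the direct image `F_* 𝒪_X` -/
noncomputable abbrev pushO (F : X ⟶ X) : X.Modules :=
  (Scheme.Modules.pushforward F).obj (SheafOfModules.unit X.ringCatSheaf)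

/-- a function as a section of `F_* 𝒪_X` -/
noncomputable def toPush (hF : IsPowFrobenius q F) {U : X.Opens} (s : Γ(X, U)) : Γ(pushO F, U) :=
  (resO (hF.preimage U).le s : Γ(X, F ⁻¹ᵁ U))

/-- a section of `F_* 𝒪_X` as a function -/
noncomputable def ofPush (hF : IsPowFrobenius q F) {U : X.Opens} (s : Γ(pushO F, U)) : Γ(X, U) :=
  resO (hF.preimage U).ge (s : Γ(X, F ⁻¹ᵁ U))

lemma toPush_ofPush {U : X.Opens} (s : Γ(pushO F, U)) : toPush hF (ofPush hF s) = s := by
  unfold toPush ofPush
  rw [resO_resO]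
  exact resO_self _ _

lemma ofPush_toPush {U : X.Opens} (s : Γ(X, U)) : ofPush hF (toPush hF s) = s := by
  unfold toPush ofPush
  exact (resO_resO _ _ _).trans (resO_self _ _)

lemma toPush_bijective {U : X.Opens} : Function.Bijective (toPush hF (U := U)) :=
  Function.bijective_iff_has_inverse.2 ⟨ofPush hF, ofPush_toPush hF, toPush_ofPush hF⟩

lemma toPush_res {V U : X.Opens} (h : V ≤ U) (s : Γ(X, U)) :
    resM (pushO F) h (toPush hF s) = toPush hF (resO h s) := by
  have h1 : resM (pushO F) h (toPush hF s) =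
    (resO (X := X) (F.preimage_mono h) (resO (hF.preimage U).le s) : Γ(X, F ⁻¹ᵁ V)) := rfl
  rw [h1]
  unfold toPush
  rw [resO_resO, resO_resO]

lemma smul_toPush {U : X.Opens} (c s : Γ(X, U)) :
    (c • toPush hF s : Γ(pushO F, U)) = toPush hF (c ^ q * s) := by
  have h1 : (c • toPush hF s : Γ(pushO F, U)) =
    ((F.app U).hom c * resO (hF.preimage U).le s : Γ(X, F ⁻¹ᵁ U)) := rfl
  rw [h1, hF.app U c]
  unfold toPush
  rw [map_mul]

lemma toPush_add {U : X.Opens} (s t : Γ(X, U)) :
    toPush hF (s + t) = toPush hF s + toPush hF t := by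
  unfold toPush; exact map_add _ _ _

lemma toPush_zero {U : X.Opens} : toPush hF (0 : Γ(X, U)) = 0 := by
  unfold toPush; exact map_zero _

lemma toPush_sum {U : X.Opens} {κ : Type*} (S : Finset κ) (s : κ → Γ(X, U)) :
    toPush hF (∑ k ∈ S, s k) = ∑ k ∈ S, toPush hF (s k) := by
  classical
  induction S using Finset.induction_on with
  | empty =>
    rw [Finset.sum_empty, Finset.sum_empty]
    exact toPush_zero hF
  | insert a S ha ih => rw [Finset.sum_insert ha, Finset.sum_insert ha, toPush_add, ih]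

lemma isFrame_push_iff {n : Type} [Fintype n] {U : X.Opens} (b : n → Γ(X, U)) :
    IsFrame (pushO F) (fun k => toPush hF (b k)) ↔
      ∀ (V : X.Opens) (h : V ≤ U), QBasis q (fun k => resO h (b k)) := by
  refine forall₂_congr fun V h => ?_
  have h1 : (fun c : n → Γ(X, V) => ∑ k, c k • resM (pushO F) h (toPush hF (b k))) =
      toPush hF ∘ (fun c : n → Γ(X, V) => ∑ k, c k ^ q * resO h (b k)) := by
    funext c
    simp only [Function.comp, toPush_sum, toPush_res, smul_toPush]
  rw [h1]
  exact (toPush_bijective hF).of_comp_iff' _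

include hF in
lemma addPow_of_frobenius (U : X.Opens) : AddPow q Γ(X, U) := by
  intro a b
  have h := map_add (F.app U).hom a b
  rw [hF.app, hF.app, hF.app, ← map_add] at h
  have h2 := congrArg (resO (hF.preimage U).ge) h
  rw [resO_resO, resO_resO, resO_self, resO_self] at h2
  exact h2

/-- A `q`-basis of the functions on an affine open set gives a frame of `F_* 𝒪_X`. -/
theorem isFrame_of_qbasis (hq0 : q ≠ 0) {n : Type} [Fintype n] {U : X.Opens}
    (hU : IsAffineOpen U) (b : n → Γ(X, U)) (hb : QBasis q b) :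
    IsFrame (pushO F) (fun k => toPush hF (b k)) := by
  rw [isFrame_push_iff]
  have hadd := addPow_of_frobenius hF
  -- basic open sets
  have hbas : ∀ f : Γ(X, U), QBasis q (fun k => resO (X.basicOpen_le f) (b k)) := by
    intro f
    let : Algebra Γ(X, U) Γ(X, X.basicOpen f) := (resO (X.basicOpen_le f)).toAlgebra
    have : IsLocalization.Away f Γ(X, X.basicOpen f) := hU.isLocalization_basicOpen f
    exact hb.localization hq0 (hadd U) Γ(X, X.basicOpen f) f
  intro V h
  -- the family of basic opens inside `V`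
  have hcov : ∀ W : X.Opens, W ≤ U → W ≤ ⨆ f : {f : Γ(X, U) // X.basicOpen f ≤ W}, X.basicOpen f.1 := by
    intro W hW x hx
    obtain ⟨f, hf1, hf2⟩ := hU.exists_basicOpen_le (V := W) ⟨x, hx⟩ (hW hx)
    exact TopologicalSpace.Opens.mem_iSup.2 ⟨⟨f, hf1⟩, hf2⟩
  have hinj : ∀ (W : X.Opens) (hW : W ≤ U) (c : n → Γ(X, W)),
      ∑ k, c k ^ q * resO hW (b k) = 0 → c = 0 := by
    intro W hW c hc
    funext k
    refine extO (fun f : {f : Γ(X, U) // X.basicOpen f ≤ W} => X.basicOpen f.1) W (fun f => f.2)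
      (hcov W hW) _ _ fun f => ?_
    have h1 := congrArg (resO f.2) hc
    simp only [map_sum, map_mul, map_pow, map_zero, resO_resO] at h1
    have h2 := ((qbasis_iff hq0 (hadd _)).1 (hbas f.1)).1 (fun k => resO f.2 (c k)) h1
    have h3 := congrFun h2 k
    simp only [Pi.zero_apply, map_zero] at h3 ⊢
    exact h3
  rw [qbasis_iff hq0 (hadd V)]
  refine ⟨hinj V h, fun x => ?_⟩
  have h1 : ∀ f : {f : Γ(X, U) // X.basicOpen f ≤ V}, ∃ c : n → Γ(X, X.basicOpen f.1),
      ∑ k, c k ^ q * resO (X.basicOpen_le f.1) (b k) = resO f.2 x := fun f =>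
    ((qbasis_iff hq0 (hadd _)).1 (hbas f.1)).2 _
  choose c hc using h1
  have hcomp : ∀ (k : n) (f g : {f : Γ(X, U) // X.basicOpen f ≤ V}),
      resO (inf_le_left : X.basicOpen f.1 ⊓ X.basicOpen g.1 ≤ _) (c f k) =
      resO (inf_le_right : X.basicOpen f.1 ⊓ X.basicOpen g.1 ≤ _) (c g k) := by
    intro k f g
    have hle : X.basicOpen f.1 ⊓ X.basicOpen g.1 ≤ U := inf_le_left.trans (X.basicOpen_le f.1)
    have h2 := congrArg (resO (inf_le_left : X.basicOpen f.1 ⊓ X.basicOpen g.1 ≤ _)) (hc f)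
    have h3 := congrArg (resO (inf_le_right : X.basicOpen f.1 ⊓ X.basicOpen g.1 ≤ _)) (hc g)
    simp only [map_sum, map_mul, map_pow, resO_resO] at h2 h3
    have h4 := qbasis_sub (b := fun k => resO hle (b k)) (hadd _)
      (fun k => resO (inf_le_left : X.basicOpen f.1 ⊓ X.basicOpen g.1 ≤ _) (c f k))
      (fun k => resO (inf_le_right : X.basicOpen f.1 ⊓ X.basicOpen g.1 ≤ _) (c g k))
    rw [h2, h3, sub_self] at h4
    have h5 := hinj _ hle _ h4
    exact sub_eq_zero.1 (congrFun h5 k)
  have h2 : ∀ k, ∃ t : Γ(X, V), ∀ f : {f : Γ(X, U) // X.basicOpen f ≤ V}, resO f.2 t = c f k := by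
    intro k
    exact (glueO (fun f : {f : Γ(X, U) // X.basicOpen f ≤ V} => X.basicOpen f.1) V (fun f => f.2)
      (hcov V h) (fun f => c f k) (hcomp k)).exists
  choose t ht using h2
  refine ⟨t, ?_⟩
  refine extO (fun f : {f : Γ(X, U) // X.basicOpen f ≤ V} => X.basicOpen f.1) V (fun f => f.2)
    (hcov V h) _ _ fun f => ?_
  simp only [map_sum, map_mul, map_pow, resO_resO]
  rw [← hc f]
  refine Finset.sum_congr rfl fun k _ => ?_
  rw [ht k f]

end Frames

end Pool.Agent.FL
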