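import Pool.Agent.FLL
import Pool.Agent.FLM
import Pool.Agent.FLN
import Pool.Agent.FLO
import Pool.Agent.FLP
import Pool.Agent.FLQ
import Pool.Agent.FLR
import Pool.Agent.FLS
import Pool.Agent.FLT
import Pool.Agent.FLU

open MvPolynomial AlgebraicGeometry HomogeneousLocalization CategoryTheory

universe u

namespace Pool.Agent.FL

variable {k : Type u} [Field k]

theorem atlas_isBlowUp {r : ℕ} (α β : Fin r → k) {X : Scheme.{u}}
    (A : Atlas α β X) (hr : 0 < r) (hd : Function.Injective fun i => (α i, β i)) :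
    IsBlowUp A.π (idealPts α β) :=
  isBlowUp_of_local A.π (idealPts α β) (atlas_invertible α β A)
    (fun g hg t => local_lift α β A hr hd g hg t)
    (fun g hg h h' e e' => atlas_lift_unique α β A hr hd g hg h h' e e')

theorem exists_iso_of_isBlowUp {r : ℕ} (α β : Fin r → k) {X X' : Scheme.{u}} (A : Atlas α β X)
    (hr : 0 < r) (hd : Function.Injective fun i => (α i, β i)) (π' : X' ⟶ P2 k)
    (h : IsBlowUp π' (idealPts α β)) : ∃ ψ : X ≅ X', ψ.hom ≫ π' = A.π :=
  exists_iso_aux α β A (atlas_invertible α β A) (fun g hg t => local_lift α β A hr hd g hg t)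
    (atlas_rigid α β A) π' h

lemma distinct_of_auto {r : ℕ} {P : Fin r → (Spec (.of k) ⟶ P2 k)} (hd : Function.Injective P)
    {τ : P2 k ≅ P2 k} {α β : Fin r → k} (h : ∀ i, P i ≫ τ.hom = affPt (α i) (β i)) :
    Function.Injective fun i => (α i, β i) := by
  intro i j hij
  have h1 : α i = α j := congrArg Prod.fst hij
  have h2 : β i = β j := congrArg Prod.snd hij
  apply hd
  rw [← cancel_mono τ.hom, h i, h j, h1, h2]

/-- the blow-up of the plane in finitely many rational points exists -/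
theorem exists_blowUp [Infinite k] {r : ℕ} (hr : 0 < r) (P : Fin r → (Spec (.of k) ⟶ P2 k))
    (hP : ∀ i, P i ≫ strP2 k = 𝟙 _) (hd : Function.Injective P) :
    ∃ (X : Scheme.{u}) (π : X ⟶ P2 k), IsBlowUp π (idealOfPts P) := by
  obtain ⟨τ, α, β, hτ, h⟩ := exists_auto P hP
  have hd' := distinct_of_auto hd h
  obtain ⟨A, hA⟩ := exists_atlas α β hr hd'
  have h1 := atlas_isBlowUp α β A hr hd'
  have h2 := isBlowUp_iso τ.symm (fun i => affPt (α i) (β i)) A.π h1
  have h3 : (fun i => affPt (α i) (β i) ≫ τ.symm.hom) = P := by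
    funext i
    rw [← h i]
    simp
  rw [h3] at h2
  exact ⟨arrProj α β, A.π ≫ τ.symm.hom, h2⟩

theorem lifts_blowUp (p : ℕ) [Fact p.Prime] [CharP k p] [PerfectRing k p] [Infinite k]
    {r : ℕ} (hr : 0 < r) (P : Fin r → (Spec (.of k) ⟶ P2 k))
    (hP : ∀ i, P i ≫ strP2 k = 𝟙 _) (hd : Function.Injective P) {X : Scheme.{u}} (π : X ⟶ P2 k)
    (hπ : IsBlowUp π (idealOfPts P)) (e : ℕ) :
    (∃ F : X ⟶ X, IsPowFrobenius (p ^ e) F) ∧
    ∀ F : X ⟶ X, IsPowFrobenius (p ^ e) F → LiftsToCharZero (π ≫ strP2 k) (pushO F) := by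
  have hp : p.Prime := Fact.out
  refine ⟨⟨powFrob (pow_ne_zero _ hp.ne_zero)
    (fun U => addPow_sections hp e (π ≫ strP2 k) U), isPowFrobenius_powFrob _ _⟩, ?_⟩
  intro F hF
  obtain ⟨τ, α, β, hτ, h⟩ := exists_auto P hP
  have hd' := distinct_of_auto hd h
  obtain ⟨A, hA⟩ := exists_atlas α β hr hd'
  have h1 : IsBlowUp (π ≫ τ.hom) (idealPts α β) := by
    have h2 := isBlowUp_iso τ P π hπ
    have h3 : (fun i => P i ≫ τ.hom) = fun i => affPt (α i) (β i) := funext h
    rw [h3] at h2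
    exact h2
  obtain ⟨ψ, hψ⟩ := exists_iso_of_isBlowUp α β A hr hd' (π ≫ τ.hom) h1
  refine liftsToCharZero_of_iso ψ (projStr (coneGr (arrMod α β))) (π ≫ strP2 k) ?_
    (lifts_arr p k hr α β hd' e).2 F hF
  rw [← hA, ← hψ, Category.assoc, Category.assoc, hτ]

end Pool.Agent.FL
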