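import Mathlib

open Polynomial

universe u

namespace Pool.Agent.FL

variable {A B : Type u} [CommRing A] [CommRing B] [Algebra A B]

/-- The graded ring `⨁ Mⁿ Tⁿ ⊆ B[T]` attached to an `A`-submodule `M` of an `A`-algebra `B`. -/
def coneRing (M : Submodule A B) : Subalgebra A B[X] where
  carrier := {p | ∀ n, p.coeff n ∈ M ^ n}
  mul_mem' := by
    intro p q hp hq n
    rw [coeff_mul]
    refine Submodule.sum_mem _ fun x hx => ?_
    rw [← (Finset.HasAntidiagonal.mem_antidiagonal).1 hx, pow_add]
    exact Submodule.mul_mem_mul (hp _) (hq _)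
  add_mem' := by
    intro p q hp hq n
    rw [coeff_add]
    exact Submodule.add_mem _ (hp n) (hq n)
  algebraMap_mem' := by
    intro a n
    rw [Polynomial.algebraMap_apply, coeff_C]
    split_ifs with h
    · subst h
      rw [pow_zero]
      exact Submodule.algebraMap_mem a
    · exact Submodule.zero_mem _

/-- The degree `n` part of the graded ring. -/
def coneGr (M : Submodule A B) (n : ℕ) : Submodule A (coneRing M) where
  carrier := {p | ∀ m, m ≠ n → p.1.coeff m = 0}
  add_mem' := by
    intro p q hp hq m hm
    simp [hp m hm, hq m hm]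
  zero_mem' := by intro m _; simp
  smul_mem' := by
    intro a p hp m hm
    simp [hp m hm]

variable {M : Submodule A B}

/-- homogeneous element of degree `n` with coefficient `b` -/
noncomputable def hom (n : ℕ) (b : B) (hb : b ∈ M ^ n) : coneRing M :=
  ⟨monomial n b, by
    intro m
    rw [coeff_monomial]
    split_ifs with h
    · subst h; exact hb
    · exact Submodule.zero_mem _⟩

lemma hom_val (n : ℕ) (b : B) (hb : b ∈ M ^ n) : (hom n b hb).1 = monomial n b := rfl

lemma hom_mem (n : ℕ) (b : B) (hb : b ∈ M ^ n) : hom n b hb ∈ coneGr M n := by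
  intro m hm
  rw [hom_val, coeff_monomial, if_neg hm.symm]

lemma eq_hom {n : ℕ} {p : coneRing M} (hp : p ∈ coneGr M n) :
    p = hom n (p.1.coeff n) (p.2 n) := by
  apply Subtype.ext
  ext m
  rw [hom_val, coeff_monomial]
  split_ifs with h
  · rw [h]
  · exact hp m (Ne.symm h)

lemma hom_mul {n m : ℕ} {b c : B} (hb : b ∈ M ^ n) (hc : c ∈ M ^ m) :
    hom n b hb * hom m c hc = hom (n + m) (b * c) (by rw [pow_add]; exact Submodule.mul_mem_mul hb hc) := by
  apply Subtype.ext
  change monomial n b * monomial m c = _
  rw [monomial_mul_monomial]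
  rfl

instance : SetLike.GradedMonoid (coneGr M) where
  one_mem := by
    intro m hm
    change (1 : B[X]).coeff m = 0
    rw [coeff_one, if_neg hm]
  mul_mem := by
    intro i j p q hp hq
    rw [eq_hom hp, eq_hom hq, hom_mul]
    exact hom_mem _ _ _

/-- homogeneous components -/
noncomputable def coneComp (M : Submodule A B) (n : ℕ) : coneRing M →+ coneGr M n where
  toFun p := ⟨hom n (p.1.coeff n) (p.2 n), hom_mem _ _ _⟩
  map_zero' := by
    apply Subtype.ext; apply Subtype.ext
    change monomial n ((0 : B[X]).coeff n) = 0
    simp
  map_add' p q := by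
    apply Subtype.ext; apply Subtype.ext
    change monomial n ((p.1 + q.1).coeff n) = monomial n (p.1.coeff n) + monomial n (q.1.coeff n)
    rw [coeff_add, map_add]

lemma coneComp_of_mem {n : ℕ} {p : coneRing M} (hp : p ∈ coneGr M n) :
    (coneComp M n p : coneRing M) = p := (eq_hom hp).symm

lemma coneComp_of_ne {n m : ℕ} {p : coneRing M} (hp : p ∈ coneGr M n) (h : m ≠ n) :
    coneComp M m p = 0 := by
  apply Subtype.ext; apply Subtype.ext
  change monomial m (p.1.coeff m) = 0
  rw [hp m h, map_zero]

open DirectSum in
/-- the decomposition map -/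
noncomputable def coneDec (M : Submodule A B) : coneRing M →+ ⨁ n, coneGr M n where
  toFun p := DirectSum.mk (fun n => coneGr M n) p.1.support (fun n => coneComp M n p)
  map_zero' := by
    apply DFinsupp.ext
    intro n
    by_cases h : n ∈ (0 : coneRing M).1.support
    · rw [DirectSum.mk_apply_of_mem h]; simp
    · rw [DirectSum.mk_apply_of_notMem h]; rfl
  map_add' p q := by
    have key : ∀ (p : coneRing M) (n : ℕ),
        (DirectSum.mk (fun n => coneGr M n) p.1.support (fun n => coneComp M n p)) n =
          coneComp M n p := by
      intro p n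
      by_cases h : n ∈ p.1.support
      · rw [DirectSum.mk_apply_of_mem h]
      · rw [DirectSum.mk_apply_of_notMem h]
        apply Subtype.ext; apply Subtype.ext
        change 0 = monomial n (p.1.coeff n)
        rw [notMem_support_iff.1 h, map_zero]
    apply DFinsupp.ext
    intro n
    change _ = (DirectSum.mk (fun n => coneGr M n) p.1.support (fun n => coneComp M n p)) n +
      (DirectSum.mk (fun n => coneGr M n) q.1.support (fun n => coneComp M n q)) n
    rw [key, key, key, map_add]

lemma coneDec_apply (p : coneRing M) (n : ℕ) : coneDec M p n = coneComp M n p := by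
  change (DirectSum.mk (fun n => coneGr M n) p.1.support (fun n => coneComp M n p)) n = _
  by_cases h : n ∈ p.1.support
  · rw [DirectSum.mk_apply_of_mem h]
  · rw [DirectSum.mk_apply_of_notMem h]
    apply Subtype.ext; apply Subtype.ext
    change 0 = monomial n (p.1.coeff n)
    rw [notMem_support_iff.1 h, map_zero]

open DirectSum in
lemma coe_coeff (x : ⨁ n, coneGr M n) (m : ℕ) :
    (DirectSum.coeAddMonoidHom (coneGr M) x).1.coeff m = (x m).1.1.coeff m := by
  classical
  induction x using DirectSum.induction_on with
  | zero => simp
  | of i y =>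
    rw [DirectSum.coeAddMonoidHom_of]
    by_cases h : i = m
    · subst h; rw [DirectSum.of_eq_same]
    · rw [DirectSum.of_eq_of_ne _ _ _ (Ne.symm h)]
      simpa using y.2 m (Ne.symm h)
  | add x y hx hy =>
    rw [map_add]
    change (_ + _ : B[X]).coeff m = _
    rw [coeff_add, hx, hy]
    rfl

theorem nonempty_decomposition (M : Submodule A B) :
    Nonempty (DirectSum.Decomposition (coneGr M)) :=
  ⟨DirectSum.Decomposition.ofAddHom (coneGr M) (coneDec M)
    (by
      ext p m
      change (DirectSum.coeAddMonoidHom (coneGr M) (coneDec M p)).1.coeff m = p.1.coeff m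
      rw [coe_coeff, coneDec_apply]
      change (monomial m (p.1.coeff m)).coeff m = _
      rw [coeff_monomial, if_pos rfl])
    (by
      apply DirectSum.addHom_ext
      intro n x
      apply DFinsupp.ext
      intro m
      change coneDec M (DirectSum.coeAddMonoidHom (coneGr M) (DirectSum.of _ n x)) m = _
      rw [DirectSum.coeAddMonoidHom_of, coneDec_apply]
      by_cases h : m = n
      · subst h
        change _ = (DirectSum.of (fun i => coneGr M i) m x) m
        rw [DirectSum.of_eq_same]
        exact Subtype.ext (coneComp_of_mem x.2)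
      · change _ = (DirectSum.of (fun i => coneGr M i) n x) m
        rw [DirectSum.of_eq_of_ne _ _ _ h, coneComp_of_ne x.2 h])⟩

noncomputable instance : DirectSum.Decomposition (coneGr M) :=
  Classical.choice (nonempty_decomposition M)

noncomputable instance : GradedRing (coneGr M) where

noncomputable instance : GradedAlgebra (coneGr M) where

end Pool.Agent.FL
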