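import Mathlib

open CategoryTheory AlgebraicGeometry TopologicalSpace Opposite Limits

universe u

namespace Pool.Agent.FL

variable {X : Scheme.{u}}

/-- restriction of sections of a sheaf of modules -/
noncomputable def resM (M : X.Modules) {V W : X.Opens} (h : V ≤ W) : Γ(M, W) →+ Γ(M, V) :=
  (M.presheaf.map (homOfLE h).op).hom

/-- restriction of functions -/
noncomputable def resO {V W : X.Opens} (h : V ≤ W) : Γ(X, W) →+* Γ(X, V) :=
  (X.presheaf.map (homOfLE h).op).hom

lemma resM_resM (M : X.Modules) {U V W : X.Opens} (h : U ≤ V) (h' : V ≤ W) (s : Γ(M, W)) :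
    resM M h (resM M h' s) = resM M (h.trans h') s := by
  unfold resM
  rw [← AddCommGrpCat.comp_apply, ← Functor.map_comp]
  rfl

lemma resO_resO {U V W : X.Opens} (h : U ≤ V) (h' : V ≤ W) (s : Γ(X, W)) :
    resO h (resO h' s) = resO (h.trans h') s := by
  unfold resO
  rw [← CommRingCat.comp_apply, ← Functor.map_comp]
  rfl

@[simp] lemma resM_self (M : X.Modules) {W : X.Opens} (h : W ≤ W) (s : Γ(M, W)) :
    resM M h s = s := by
  unfold resM
  have : (homOfLE h).op = 𝟙 (op W) := rfl
  rw [this, M.presheaf.map_id]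
  rfl

@[simp] lemma resO_self {W : X.Opens} (h : W ≤ W) (s : Γ(X, W)) :
    resO h s = s := by
  unfold resO
  have : (homOfLE h).op = 𝟙 (op W) := rfl
  rw [this, X.presheaf.map_id]
  rfl

lemma resM_smul (M : X.Modules) {V W : X.Opens} (h : V ≤ W) (c : Γ(X, W)) (s : Γ(M, W)) :
    resM M h (c • s) = resO h c • resM M h s :=
  M.map_smul (homOfLE h) c s

lemma app_resM {M N : X.Modules} (φ : M ⟶ N) {V W : X.Opens} (h : V ≤ W) (s : Γ(M, W)) :
    φ.app V (resM M h s) = resM N h (φ.app W s) := by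
  have := φ.mapPresheaf.naturality (homOfLE h).op
  exact congr($(this) s)

lemma app_smul' {M N : X.Modules} (φ : M ⟶ N) {W : X.Opens} (c : Γ(X, W)) (s : Γ(M, W)) :
    φ.app W (c • s) = c • φ.app W s := by
  simp

theorem glueM (M : X.Modules) {ι : Type*} (U : ι → X.Opens) (V : X.Opens)
    (hU : ∀ i, U i ≤ V) (hV : V ≤ iSup U) (s : ∀ i, Γ(M, U i))
    (hs : ∀ i j, resM M (inf_le_left : U i ⊓ U j ≤ U i) (s i) =
      resM M (inf_le_right : U i ⊓ U j ≤ U j) (s j)) :
    ∃! t : Γ(M, V), ∀ i, resM M (hU i) t = s i := by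
  exact TopCat.Sheaf.existsUnique_gluing' (⟨M.presheaf, M.isSheaf⟩ : TopCat.Sheaf Ab X) U V
    (fun i => homOfLE (hU i)) hV s hs

theorem glueO {ι : Type*} (U : ι → X.Opens) (V : X.Opens)
    (hU : ∀ i, U i ≤ V) (hV : V ≤ iSup U) (s : ∀ i, Γ(X, U i))
    (hs : ∀ i j, resO (inf_le_left : U i ⊓ U j ≤ U i) (s i) =
      resO (inf_le_right : U i ⊓ U j ≤ U j) (s j)) :
    ∃! t : Γ(X, V), ∀ i, resO (hU i) t = s i := by
  exact TopCat.Sheaf.existsUnique_gluing' (X.sheaf) U V
    (fun i => homOfLE (hU i)) hV s hs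

theorem extM (M : X.Modules) {ι : Type*} (U : ι → X.Opens) (V : X.Opens)
    (hU : ∀ i, U i ≤ V) (hV : V ≤ iSup U) (s t : Γ(M, V))
    (hs : ∀ i, resM M (hU i) s = resM M (hU i) t) : s = t := by
  exact TopCat.Sheaf.eq_of_locally_eq' (⟨M.presheaf, M.isSheaf⟩ : TopCat.Sheaf Ab X) U V
    (fun i => homOfLE (hU i)) hV s t hs

theorem extO {ι : Type*} (U : ι → X.Opens) (V : X.Opens)
    (hU : ∀ i, U i ≤ V) (hV : V ≤ iSup U) (s t : Γ(X, V))
    (hs : ∀ i, resO (hU i) s = resO (hU i) t) : s = t := by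
  exact TopCat.Sheaf.eq_of_locally_eq' (X.sheaf) U V
    (fun i => homOfLE (hU i)) hV s t hs

/-- build a morphism of sheaves of modules from its action on sections -/
noncomputable def mkHom (M N : X.Modules) (φ : ∀ V : X.Opens, Γ(M, V) →+ Γ(N, V))
    (hres : ∀ {V W : X.Opens} (h : V ≤ W) (s : Γ(M, W)), φ V (resM M h s) = resM N h (φ W s))
    (hsm : ∀ {W : X.Opens} (c : Γ(X, W)) (s : Γ(M, W)), φ W (c • s) = c • φ W s) : M ⟶ N :=
  ⟨PresheafOfModules.homMk
    { app := fun V => AddCommGrpCat.ofHom (φ V.unop)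
      naturality := fun V W f => by
        ext s
        exact hres (leOfHom f.unop) s }
    (fun V r m => hsm r m)⟩

@[simp] lemma mkHom_app (M N : X.Modules) (φ : ∀ V : X.Opens, Γ(M, V) →+ Γ(N, V)) (hres) (hsm)
    (V : X.Opens) (s : Γ(M, V)) : (mkHom M N φ hres hsm).app V s = φ V s := rfl

/-- `e` is a frame of the sheaf of modules `M` over the open set `U`: for every open `V ≤ U`
every section of `M` over `V` is a unique linear combination of the restrictions of `e`. -/
def IsFrame (M : X.Modules) {n : Type} [Fintype n] {U : X.Opens} (e : n → Γ(M, U)) : Prop :=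
  ∀ (V : X.Opens) (h : V ≤ U),
    Function.Bijective (fun c : n → Γ(X, V) => ∑ k, c k • resM M h (e k))

namespace IsFrame

variable {M N : X.Modules} {n : Type} [Fintype n] {U : X.Opens} {e : n → Γ(M, U)}

lemma ext (he : IsFrame M e) {V : X.Opens} (h : V ≤ U) {c d : n → Γ(X, V)}
    (hcd : ∑ k, c k • resM M h (e k) = ∑ k, d k • resM M h (e k)) : c = d :=
  (he V h).1 hcd

/-- coordinates of a section in a frame -/
noncomputable def coord (he : IsFrame M e) {V : X.Opens} (h : V ≤ U) (s : Γ(M, V)) : n → Γ(X, V) :=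
  Classical.choose ((he V h).2 s)

lemma sum_coord (he : IsFrame M e) {V : X.Opens} (h : V ≤ U) (s : Γ(M, V)) :
    ∑ k, he.coord h s k • resM M h (e k) = s :=
  Classical.choose_spec ((he V h).2 s)

lemma coord_eq (he : IsFrame M e) {V : X.Opens} (h : V ≤ U) (s : Γ(M, V)) (c : n → Γ(X, V))
    (hc : ∑ k, c k • resM M h (e k) = s) : he.coord h s = c :=
  he.ext h (by rw [he.sum_coord, hc])

lemma coord_res (he : IsFrame M e) {V W : X.Opens} (h : V ≤ W) (h' : W ≤ U) (s : Γ(M, W)) :
    he.coord (h.trans h') (resM M h s) = fun k => resO h (he.coord h' s k) := by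
  apply he.coord_eq
  conv_rhs => rw [← he.sum_coord h' s]
  rw [map_sum]
  refine Finset.sum_congr rfl fun k _ => ?_
  rw [resM_smul, resM_resM]

lemma coord_add (he : IsFrame M e) {V : X.Opens} (h : V ≤ U) (s t : Γ(M, V)) :
    he.coord h (s + t) = he.coord h s + he.coord h t := by
  apply he.coord_eq
  simp only [Pi.add_apply, add_smul, Finset.sum_add_distrib, he.sum_coord]

lemma coord_smul (he : IsFrame M e) {V : X.Opens} (h : V ≤ U) (c : Γ(X, V)) (s : Γ(M, V)) :
    he.coord h (c • s) = fun k => c * he.coord h s k := by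
  apply he.coord_eq
  simp only [mul_smul, ← Finset.smul_sum, he.sum_coord]

lemma restrict (he : IsFrame M e) {V : X.Opens} (h : V ≤ U) :
    IsFrame M (fun k => resM M h (e k)) := by
  intro W hW
  simp only [resM_resM]
  exact he W (hW.trans h)

end IsFrame

/-- A compatible family: images of the frames `e i` under a morphism `M ⟶ N`. -/
def CompatFam {M N : X.Modules} {n : Type} [Fintype n] {ι : Type*} {U : ι → X.Opens}
    (e : ∀ i, n → Γ(M, U i)) (f : ∀ i, n → Γ(N, U i)) : Prop :=
  ∀ i j k (c : n → Γ(X, U i ⊓ U j)),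
    resM M inf_le_right (e j k) = ∑ l, c l • resM M inf_le_left (e i l) →
    resM N inf_le_right (f j k) = ∑ l, c l • resM N inf_le_left (f i l)

section HomOfFrames

variable {M N : X.Modules} {n : Type} [Fintype n] {ι : Type*} {U : ι → X.Opens}
  {e : ∀ i, n → Γ(M, U i)} (he : ∀ i, IsFrame M (e i)) {f : ∀ i, n → Γ(N, U i)}

/-- the local value -/
noncomputable def locVal (V : X.Opens) (s : Γ(M, V)) (i : ι) : Γ(N, V ⊓ U i) :=
  ∑ k, (he i).coord inf_le_right (resM M (inf_le_left : V ⊓ U i ≤ V) s) k •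
    resM N (inf_le_right : V ⊓ U i ≤ U i) (f i k)

/-- value computed on any open inside `U i` -/
noncomputable def valOn (f : ∀ i, n → Γ(N, U i)) (i : ι) {W : X.Opens} (h : W ≤ U i) (s : Γ(M, W)) :
    Γ(N, W) :=
  ∑ k, (he i).coord h s k • resM N h (f i k)

lemma valOn_res (i : ι) {W W' : X.Opens} (h : W ≤ U i) (h' : W' ≤ W) (s : Γ(M, W)) :
    valOn he f i (h'.trans h) (resM M h' s) = resM N h' (valOn he f i h s) := by
  unfold valOn
  rw [(he i).coord_res, map_sum]
  refine Finset.sum_congr rfl fun k _ => ?_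
  rw [resM_smul, resM_resM]

lemma valOn_add (i : ι) {W : X.Opens} (h : W ≤ U i) (s t : Γ(M, W)) :
    valOn he f i h (s + t) = valOn he f i h s + valOn he f i h t := by
  unfold valOn
  simp only [(he i).coord_add, Pi.add_apply, add_smul, Finset.sum_add_distrib]

lemma valOn_smul (i : ι) {W : X.Opens} (h : W ≤ U i) (c : Γ(X, W)) (s : Γ(M, W)) :
    valOn he f i h (c • s) = c • valOn he f i h s := by
  unfold valOn
  simp only [(he i).coord_smul, mul_smul, Finset.smul_sum]

lemma valOn_sum {κ : Type*} (S : Finset κ) (i : ι) {W : X.Opens} (h : W ≤ U i) (s : κ → Γ(M, W)) :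
    valOn he f i h (∑ x ∈ S, s x) = ∑ x ∈ S, valOn he f i h (s x) := by
  classical
  have h0 : valOn he f i h 0 = 0 := by
    have := valOn_smul he (f := f) i h (0 : Γ(X, W)) 0
    simpa using this
  induction S using Finset.induction_on with
  | empty => simpa using h0
  | insert a S ha ih => rw [Finset.sum_insert ha, Finset.sum_insert ha, valOn_add, ih]

lemma valOn_basis (i : ι) {W : X.Opens} (h : W ≤ U i) (k : n) :
    valOn he f i h (resM M h (e i k)) = resM N h (f i k) := by
  classical
  unfold valOn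
  have : (he i).coord h (resM M h (e i k)) = Pi.single k 1 := by
    apply (he i).coord_eq
    rw [Finset.sum_eq_single k]
    · simp
    · intro b _ hb; simp [Pi.single_eq_of_ne hb]
    · simp
  rw [this, Finset.sum_eq_single k]
  · simp
  · intro b _ hb; simp [Pi.single_eq_of_ne hb]
  · simp

lemma valOn_indep (hf : CompatFam e f) (i j : ι) {W : X.Opens} (hi : W ≤ U i) (hj : W ≤ U j)
    (s : Γ(M, W)) : valOn he f i hi s = valOn he f j hj s := by
  -- expand `s` in the frame `j`
  conv_lhs => rw [← (he j).sum_coord hj s]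
  rw [valOn_sum]
  unfold valOn
  refine Finset.sum_congr rfl fun k _ => ?_
  have := valOn_smul he (f := f) i hi ((he j).coord hj s k) (resM M hj (e j k))
  unfold valOn at this
  rw [this]
  congr 1
  -- now the compatibility
  have hij : W ≤ U i ⊓ U j := le_inf hi hj
  obtain ⟨c, hc⟩ := (he i _ (inf_le_left : U i ⊓ U j ≤ U i)).2 (resM M inf_le_right (e j k))
  have h1 := hf i j k c hc.symm
  have h2 : (he i).coord hi (resM M hj (e j k)) = fun l => resO hij (c l) := by
    apply (he i).coord_eq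
    have := congrArg (resM M hij) hc
    simp only [map_sum, resM_smul, resM_resM] at this
    exact this
  rw [h2]
  have h3 := congrArg (resM N hij) h1
  simp only [map_sum, resM_smul, resM_resM] at h3
  exact h3.symm

include he in
/-- The morphism determined by a compatible family. -/
theorem exists_hom_of_frames (hU : ⨆ i, U i = ⊤) (hf : CompatFam e f) :
    ∃ φ : M ⟶ N, ∀ i k, φ.app (U i) (e i k) = f i k := by
  have key : ∀ (V : X.Opens) (s : Γ(M, V)), ∃! t : Γ(N, V),
      ∀ i, resM N (inf_le_left : V ⊓ U i ≤ V) t =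
        valOn he f i inf_le_right (resM M inf_le_left s) := by
    intro V s
    refine glueM N (fun i => V ⊓ U i) V (fun i => inf_le_left) ?_ _ ?_
    · rw [← inf_iSup_eq, hU]; simp
    · intro i j
      rw [← valOn_res he i, ← valOn_res he j, resM_resM, resM_resM]
      exact valOn_indep he hf i j _ _ _
  choose φ hφ huniq using key
  -- characterisation on opens inside `U i`
  have hφU : ∀ (V : X.Opens) (i : ι) (h : V ≤ U i) (s : Γ(M, V)), φ V s = valOn he f i h s := by
    intro V i h s
    refine ((huniq V s) _ fun j => ?_).symm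
    show resM N _ (valOn he f i h s) = _
    rw [← valOn_res he i h inf_le_left]
    exact valOn_indep he hf i j _ _ _
  have hcov : ∀ V : X.Opens, V ≤ ⨆ i, V ⊓ U i := by
    intro V; rw [← inf_iSup_eq, hU]; simp
  have hres : ∀ {V W : X.Opens} (h : V ≤ W) (s : Γ(M, W)), φ V (resM M h s) = resM N h (φ W s) := by
    intro V W h s
    refine extM N (fun i => V ⊓ U i) V (fun i => inf_le_left) (hcov V) _ _ fun i => ?_
    have h1 := hφ V (resM M h s) i
    change resM N _ (φ V (resM M h s)) = _ at h1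
    rw [h1, resM_resM, resM_resM]
    have h2 := hφ W s i
    change resM N _ (φ W s) = _ at h2
    have h3 : V ⊓ U i ≤ W ⊓ U i := inf_le_inf_right _ h
    have h4 := congrArg (resM N h3) h2
    rw [resM_resM, ← valOn_res he i, resM_resM] at h4
    exact h4.symm
  have hadd : ∀ (V : X.Opens) (s t : Γ(M, V)), φ V (s + t) = φ V s + φ V t := by
    intro V s t
    refine (huniq V (s + t) _ fun i => ?_).symm
    change resM N _ (φ V s + φ V t) = _
    rw [map_add, map_add, valOn_add, hφ V s i, hφ V t i]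
  have hzero : ∀ (V : X.Opens), φ V 0 = 0 := by
    intro V
    have := hadd V 0 0
    simpa using this
  have hsm : ∀ {W : X.Opens} (c : Γ(X, W)) (s : Γ(M, W)), φ W (c • s) = c • φ W s := by
    intro W c s
    refine (huniq W (c • s) _ fun i => ?_).symm
    change resM N _ (c • φ W s) = _
    rw [resM_smul, resM_smul, valOn_smul, hφ W s i]
  refine ⟨mkHom M N (fun V => { toFun := φ V, map_zero' := hzero V, map_add' := hadd V })
    (fun h s => hres h s) (fun c s => hsm c s), fun i k => ?_⟩
  rw [mkHom_app]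
  change φ (U i) (e i k) = f i k
  rw [hφU (U i) i le_rfl]
  have := valOn_basis he (f := f) i (le_refl (U i)) k
  simpa using this

/-- morphisms out of a framed sheaf are determined by their values on the frames -/
theorem hom_ext_of_frames (he : ∀ i, IsFrame M (e i)) (hU : ⨆ i, U i = ⊤) {φ ψ : M ⟶ N}
    (h : ∀ i k, φ.app (U i) (e i k) = ψ.app (U i) (e i k)) : φ = ψ := by
  refine Scheme.Modules.hom_ext _ _ fun V => ?_
  ext s
  have hcov : V ≤ ⨆ i, V ⊓ U i := by
    rw [← inf_iSup_eq, hU]; simp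
  refine extM N (fun i => V ⊓ U i) V (fun i => inf_le_left) hcov _ _ fun i => ?_
  rw [← app_resM, ← app_resM]
  rw [← (he i).sum_coord inf_le_right (resM M (inf_le_left : V ⊓ U i ≤ V) s)]
  simp only [map_sum, app_smul', app_resM, h]

lemma compatFam_of_hom (φ : M ⟶ N) : CompatFam e (fun i k => φ.app (U i) (e i k)) := by
  intro i j k c hc
  have := congrArg (φ.app _) hc
  simp only [map_sum, app_smul', app_resM] at this
  exact this

end HomOfFrames

section Pullback

variable {Y : Scheme.{u}} (f : X ⟶ Y)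

lemma app_resO (f : X ⟶ Y) {V W : Y.Opens} (h : V ≤ W) (c : Γ(Y, W)) :
    (f.app V).hom (resO h c) = resO (X := X) (V := f ⁻¹ᵁ V) (W := f ⁻¹ᵁ W)
      (f.preimage_mono h) ((f.app W).hom c) := by
  have := f.naturality (homOfLE h).op
  exact congr($(this).hom c)

lemma push_smul (E : X.Modules) (V : Y.Opens) (c : Γ(Y, V)) (s : Γ(E, f ⁻¹ᵁ V)) :
    (HSMul.hSMul (α := Γ(Y, V)) (β := Γ((Scheme.Modules.pushforward f).obj E, V))
      (γ := Γ((Scheme.Modules.pushforward f).obj E, V)) c s) =
      (((f.app V).hom c) • s : Γ(E, f ⁻¹ᵁ V)) := rfl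

lemma push_res (E : X.Modules) {V W : Y.Opens} (h : V ≤ W) (s : Γ(E, f ⁻¹ᵁ W)) :
    resM ((Scheme.Modules.pushforward f).obj E) h s =
      resM E (f.preimage_mono h) s := rfl

/-- Transition matrices of a family of frames. -/
def IsTrans (M : Y.Modules) {n : Type} [Fintype n] {ι : Type*} {U : ι → Y.Opens}
    (e : ∀ i, n → Γ(M, U i)) (g : ∀ i j, Matrix n n Γ(Y, U i ⊓ U j)) : Prop :=
  ∀ i j k, resM M inf_le_right (e j k) = ∑ l, g i j l k • resM M inf_le_left (e i l)

theorem pullback_iso_of_frames {n : Type} [Fintype n] {ι : Type*} {U : ι → Y.Opens}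
    (hU : ⨆ i, U i = ⊤) (M : Y.Modules) (E : X.Modules)
    (e : ∀ i, n → Γ(M, U i)) (b : ∀ i, n → Γ(E, f ⁻¹ᵁ U i))
    (he : ∀ i, IsFrame M (e i)) (hb : ∀ i, IsFrame E (b i))
    (g : ∀ i j, Matrix n n Γ(Y, U i ⊓ U j)) (hg : IsTrans M e g)
    (hg' : IsTrans (U := fun i => f ⁻¹ᵁ U i) E b (fun i j => (g i j).map (f.app (U i ⊓ U j)).hom)) :
    Nonempty ((Scheme.Modules.pullback f).obj M ≅ E) := by
  set adj := Scheme.Modules.pullbackPushforwardAdjunction f
  have hUX : ⨆ i, f ⁻¹ᵁ U i = ⊤ := by
    rw [← Scheme.Hom.preimage_iSup, hU]; rfl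
  -- the family `b` in the pushforward
  have hcomp : CompatFam (N := (Scheme.Modules.pushforward f).obj E) e b := by
    intro i j k c hc
    have h1 : c = fun l => g i j l k := by
      refine (he i).ext inf_le_left ?_
      rw [← hc]; exact hg i j k
    subst h1
    exact hg' i j k
  obtain ⟨ψ, hψ⟩ := exists_hom_of_frames (N := (Scheme.Modules.pushforward f).obj E) he hU hcomp
  let ψ' : (Scheme.Modules.pullback f).obj M ⟶ E := (adj.homEquiv _ _).symm ψ
  have hiso : IsIso ψ' := by
    apply isIso_of_coyoneda_map_bijective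
    intro N
    have h2 : ∀ θ : E ⟶ N, adj.homEquiv _ _ (ψ' ≫ θ) = ψ ≫ (Scheme.Modules.pushforward f).map θ := by
      intro θ
      rw [adj.homEquiv_naturality_right]
      simp [ψ']
    have h3 : ∀ (θ : E ⟶ N) i k, (ψ ≫ (Scheme.Modules.pushforward f).map θ).app (U i) (e i k) =
        θ.app (f ⁻¹ᵁ U i) (b i k) := by
      intro θ i k
      change θ.app (f ⁻¹ᵁ U i) (ψ.app (U i) (e i k)) = _
      rw [hψ]
    constructor
    · intro θ θ' hθ
      have h4 : ψ ≫ (Scheme.Modules.pushforward f).map θ =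
          ψ ≫ (Scheme.Modules.pushforward f).map θ' := by
        rw [← h2, ← h2]; exact congrArg _ hθ
      refine hom_ext_of_frames (U := fun i => f ⁻¹ᵁ U i) hb hUX fun i k => ?_
      rw [← h3, ← h3, h4]
    · intro χ'
      set χ : M ⟶ (Scheme.Modules.pushforward f).obj N := adj.homEquiv _ _ χ' with hχ
      have hcomp' : CompatFam (U := fun i => f ⁻¹ᵁ U i) b
          (fun i k => (χ.app (U i) (e i k) : Γ(N, f ⁻¹ᵁ U i))) := by
        intro i j k c hc
        have h1 : c = fun l => (f.app (U i ⊓ U j)).hom (g i j l k) := by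
          refine (hb i).ext inf_le_left ?_
          rw [← hc]; exact hg' i j k
        subst h1
        have h5 := congrArg (χ.app _) (hg i j k)
        simp only [map_sum, app_smul', app_resM] at h5
        exact h5
      obtain ⟨θ, hθ⟩ := exists_hom_of_frames (U := fun i => f ⁻¹ᵁ U i) hb hUX hcomp'
      refine ⟨θ, ?_⟩
      apply (adj.homEquiv _ _).injective
      rw [← hχ]
      refine (h2 θ).trans ?_
      refine hom_ext_of_frames he hU fun i k => ?_
      rw [h3, hθ]
  exact ⟨asIso ψ'⟩

end Pullback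

end Pool.Agent.FL
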